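import Pool.Agent.Helper61.NX.One

/-!
Project NX, module NX-9: the weighted statement from the unweighted one.
-/

set_option autoImplicit false

open Finset
open scoped BigOperators ComplexConjugate

namespace Pool.Agent.Helper57.NX

noncomputable section

theorem Nice.mono {m N : ℕ} [NeZero N] {S : Sys (m + 1)} {Xi ε B B' : ℝ} {i : Fin (m + 1)}
    {ψ : ZMod N → ℂ} (h : Nice S Xi ε B i ψ) (hXi : 0 < Xi) (hB : B ≤ B') :
    Nice S Xi ε B' i ψ := by
  obtain ⟨b, z, g, h1, h2, h3, h4, h5⟩ := h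
  exact ⟨b, z, g, h1, h2, h3, h4.trans (by gcongr), h5⟩

theorem stages (m : ℕ) (c : Fin (m + 1) → ℝ) (s ε : ℝ) (hε : 0 < ε)
    (h1 : ∀ i, ε ≤ c i / 4) (h2 : ε ≤ (c (Fin.last m) - s) / 4) (hU : UsP m c s ε)
    (J : Finset (Fin (m + 1))) :
    ∃ x0 : ℝ, 0 < x0 ∧ x0 ≤ ε ∧ ∃ C : ℕ, 1 ≤ C ∧ ∃ σ : ℝ, 0 < σ ∧ σ ≤ 1 / 2 ∧ ∃ D0 : ℝ, 4 ≤ D0 ∧
    ∀ (S : Sys (m + 1)) (N : ℕ) [NeZero N], D0 ≤ S.D → Good S c N x0 →
    ∀ δ : ℝ, S.D ^ (-σ) ≤ δ → δ ≤ 1 / 2 →
    ∀ X : ℝ, (S.Q : ℝ) ≤ X → S.Q * S.D ^ (s - σ) ≤ X → X ≤ S.Q * S.D ^ s →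
    ∀ (h : ℕ → ℂ) (f0 : ZMod N → ℂ) (f : Fin (m + 1) → ZMod N → ℂ),
    (∀ k, ‖h k‖ ≤ 1) → Adm δ⁻¹ S.Q f0 → (∀ i, Adm δ⁻¹ (XiOf S X i) (f i)) →
    δ ≤ ‖form S c h f0 f‖ → ∃ f' : Fin (m + 1) → ZMod N → ℂ,
      (∀ i ∈ J, Nice S (XiOf S X i) ε (δ⁻¹ ^ C) i (f' i)) ∧
      (∀ i, Adm (δ⁻¹ ^ C) (XiOf S X i) (f' i)) ∧ δ ^ C ≤ ‖form S c h f0 f'‖ := by
  classical
  induction J using Finset.induction_on with
  | empty =>
    refine ⟨ε, hε, le_rfl, 1, le_rfl, 1 / 2, by norm_num, le_rfl, 4, le_rfl, ?_⟩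
    intro S N _ hD hG δ hδσ hδ X hQX hX hX' h f0 f hh hf0 hf hform
    refine ⟨f, fun i hi => absurd hi (Finset.notMem_empty i), ?_, ?_⟩
    · intro i
      rw [pow_one]
      exact hf i
    · rw [pow_one]
      exact hform
  | insert i J hi ih =>
    obtain ⟨x1, hx1, hx1', C1, hC1, σ1, hσ1, hσ1', D1, hD1, H1⟩ := ih
    obtain ⟨x2, hx2, hx2', C2, hC2, σ2, hσ2, hσ2', D2, hD2, H2⟩ := one_step m c s ε hε h1 h2 hU
    have hC1r : (1 : ℝ) ≤ C1 := by exact_mod_cast hC1
    have hC10 : (0 : ℝ) < C1 := by linarith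
    refine ⟨min x1 x2, lt_min hx1 hx2, (min_le_left _ _).trans hx1', C1 * C2,
      Nat.mul_pos hC1 hC2, min σ1 (σ2 / C1), lt_min hσ1 (by positivity),
      (min_le_left _ _).trans hσ1', max D1 D2, hD1.trans (le_max_left _ _), ?_⟩
    intro S N _ hD hG δ hδσ hδ X hQX hX hX' h f0 f hh hf0 hf hform
    have hDa : D1 ≤ S.D := (le_max_left _ _).trans hD
    have hDb : D2 ≤ S.D := (le_max_right _ _).trans hD
    have hD1' : 1 ≤ S.D := by linarith
    have hD0 : 0 < S.D := by linarith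
    have hδ0 : 0 < δ := (Real.rpow_pos_of_pos hD0 _).trans_le hδσ
    have hR2 : 2 ≤ δ⁻¹ := two_le_inv hδ0 hδ
    have hm1 : min σ1 (σ2 / C1) ≤ σ1 := min_le_left _ _
    have hm2 : min σ1 (σ2 / C1) ≤ σ2 / C1 := min_le_right _ _
    have hm3 : σ2 / C1 ≤ σ2 := div_le_self hσ2.le hC1r
    have hQ0 : (0 : ℝ) < S.Q := by
      have := hG.Q1
      exact (Real.rpow_pos_of_pos hD0 _).trans_le this
    have hXi0 : ∀ j, 0 < XiOf S X j := fun j => hQ0.trans_le (le_XiOf hQX j)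
    have hXσ : ∀ σ', min σ1 (σ2 / C1) ≤ σ' → S.Q * S.D ^ (s - σ') ≤ X := by
      intro σ' hσ'
      refine le_trans (mul_le_mul_of_nonneg_left ?_ (Nat.cast_nonneg _)) hX
      exact Real.rpow_le_rpow_of_exponent_le hD1' (by linarith)
    obtain ⟨f', hN', hA', hF'⟩ := H1 S N hDa (hG.mono (min_le_left _ _) hD1') δ
      ((Real.rpow_le_rpow_of_exponent_le hD1' (by linarith)).trans hδσ) hδ X hQX (hXσ σ1 hm1) hX'
      h f0 f hh hf0 hf hform
    have hinv : (δ ^ C1)⁻¹ = δ⁻¹ ^ C1 := (inv_pow δ C1).symm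
    have hδ' : S.D ^ (-σ2) ≤ δ ^ C1 := by
      calc S.D ^ (-σ2) = (S.D ^ (-(σ2 / C1))) ^ C1 := by
            rw [← Real.rpow_natCast, ← Real.rpow_mul hD0.le]
            congr 1
            field_simp
        _ ≤ δ ^ C1 := by
            refine pow_le_pow_left₀ (Real.rpow_nonneg hD0.le _) (le_trans ?_ hδσ) C1
            exact Real.rpow_le_rpow_of_exponent_le hD1' (by linarith)
    have hδ'' : δ ^ C1 ≤ 1 / 2 := by
      calc δ ^ C1 ≤ δ ^ 1 := pow_le_pow_of_le_one hδ0.le (by linarith) hC1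
        _ ≤ 1 / 2 := by rw [pow_one]; exact hδ
    obtain ⟨ψ, hψ1, hψ2, hψ3⟩ := H2 S N hDb (hG.mono (min_le_right _ _) hD1') (δ ^ C1) hδ' hδ'' X
      hQX (hXσ σ2 (hm2.trans hm3)) hX' h f0 f' hh
      (hf0.mono (by
        rw [hinv]
        exact le_self_pow₀ (by linarith) (by omega)) hQ0 le_rfl)
      (fun j => by
        rw [hinv]
        exact hA' j) hF' i
    have hpow : (δ ^ C1)⁻¹ ^ C2 = δ⁻¹ ^ (C1 * C2) := by rw [hinv, ← pow_mul]
    rw [hpow] at hψ1 hψ2
    have hle : δ⁻¹ ^ C1 ≤ δ⁻¹ ^ (C1 * C2) :=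
      pow_le_pow_right₀ (by linarith) (Nat.le_mul_of_pos_right C1 hC2)
    refine ⟨Function.update f' i ψ, ?_, ?_, ?_⟩
    · intro j hj
      by_cases hji : j = i
      · subst hji
        rw [Function.update_self]
        exact hψ1
      · rw [Function.update_of_ne hji]
        exact (hN' j ((Finset.mem_insert.mp hj).resolve_left hji)).mono (hXi0 j) hle
    · intro j
      by_cases hji : j = i
      · subst hji
        rw [Function.update_self]
        exact hψ2
      · rw [Function.update_of_ne hji]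
        exact (hA' j).mono hle (hXi0 j) le_rfl
    · rw [pow_mul]
      exact hψ3

/-! ### The final step -/

theorem rpow_lip {c t t' : ℝ} (hc : 0 < c) (h1 : 1 ≤ t) (h4 : t ≤ 4) (h1' : 1 ≤ t')
    (h4' : t' ≤ 4) : |t' ^ c - t ^ c| ≤ c * 4 ^ c * |t' - t| := by
  have key := Convex.norm_image_sub_le_of_norm_hasDerivWithin_le (f := fun x : ℝ => x ^ c)
    (f' := fun x : ℝ => c * x ^ (c - 1)) (s := Set.Icc (1 : ℝ) 4) (C := c * 4 ^ c)
    (fun x hx => (Real.hasDerivAt_rpow_const (Or.inl (by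
      have := hx.1
      intro h0
      rw [h0] at this
      norm_num at this))).hasDerivWithinAt)
    (fun x hx => by
      have hx0 : 0 < x := by linarith [hx.1]
      rw [Real.norm_eq_abs, abs_of_nonneg (by positivity)]
      refine mul_le_mul_of_nonneg_left ?_ hc.le
      calc x ^ (c - 1) ≤ x ^ c := Real.rpow_le_rpow_of_exponent_le hx.1 (by linarith)
        _ ≤ 4 ^ c := Real.rpow_le_rpow hx0.le hx.2 hc.le)
    (convex_Icc 1 4) ⟨h1, h4⟩ ⟨h1', h4'⟩
  exact key

theorem floor_sub (u v : ℝ) : |(((⌊u⌋ - ⌊v⌋ : ℤ)) : ℝ)| ≤ |u - v| + 1 := by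
  push_cast
  have h1 := Int.floor_le u
  have h2 := Int.lt_floor_add_one u
  have h3 := Int.floor_le v
  have h4 := Int.lt_floor_add_one v
  rw [abs_le]
  constructor
  · linarith [neg_abs_le (u - v)]
  · linarith [le_abs_self (u - v)]

theorem shift_sum {G : ℕ → ℂ} (hG : ∀ k, ‖G k‖ ≤ 1) (u T j : ℕ) :
    ‖∑ k ∈ Ico u (u + T), G k - ∑ k ∈ Ico u (u + T), G (k + j)‖ ≤ 2 * j := by
  induction j with
  | zero => simp
  | succ j ih =>
    have h1 : ∑ k ∈ Ico u (u + T), G (k + (j + 1)) =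
        ∑ k ∈ Ico u (u + T), G (k + j) + G (u + T + j) - G (u + j) := by
      have h2 : ∀ T : ℕ, ∑ k ∈ Ico u (u + T), G (k + (j + 1)) =
          ∑ k ∈ Ico u (u + T), G (k + j) + G (u + T + j) - G (u + j) := by
        intro T
        induction T with
        | zero => simp
        | succ T ihT =>
          rw [← add_assoc, Finset.sum_Ico_succ_top (by omega), Finset.sum_Ico_succ_top (by omega),
            ihT]
          have h3 : u + T + (j + 1) = u + T + 1 + j := by ring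
          rw [h3]
          ring
      exact h2 T
    rw [h1]
    have h4 : ∑ k ∈ Ico u (u + T), G k -
        (∑ k ∈ Ico u (u + T), G (k + j) + G (u + T + j) - G (u + j)) =
        (∑ k ∈ Ico u (u + T), G k - ∑ k ∈ Ico u (u + T), G (k + j)) + (G (u + j) - G (u + T + j)) := by
      ring
    rw [h4]
    refine (norm_add_le _ _).trans ?_
    have h5 : ‖G (u + j) - G (u + T + j)‖ ≤ 2 := by
      refine (norm_sub_le _ _).trans ?_
      linarith [hG (u + j), hG (u + T + j)]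
    push_cast
    linarith

theorem shift_expect {G : ℕ → ℂ} (hG : ∀ k, ‖G k‖ ≤ 1) (u T j : ℕ) (hT : 1 ≤ T) :
    ‖𝔼 k ∈ Ico u (u + T), G k - 𝔼 k ∈ Ico u (u + T), G (k + j)‖ ≤ 2 * j / T := by
  have hT0 : (0 : ℝ) < T := by exact_mod_cast hT
  rw [Finset.expect_eq_sum_div_card, Finset.expect_eq_sum_div_card, ← sub_div, norm_div,
    Nat.card_Ico, Nat.add_sub_cancel_left, Complex.norm_natCast]
  exact div_le_div_of_nonneg_right (shift_sum hG u T j) hT0.le

theorem prod_sub_prod {ι : Type} (s : Finset ι) {p q : ι → ℂ} (hp : ∀ i ∈ s, ‖p i‖ ≤ 1)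
    (hq : ∀ i ∈ s, ‖q i‖ ≤ 1) : ‖∏ i ∈ s, p i - ∏ i ∈ s, q i‖ ≤ ∑ i ∈ s, ‖p i - q i‖ := by
  classical
  induction s using Finset.induction_on with
  | empty => simp
  | insert i s hi ih =>
    rw [Finset.prod_insert hi, Finset.prod_insert hi, Finset.sum_insert hi]
    have h1 : p i * ∏ j ∈ s, p j - q i * ∏ j ∈ s, q j =
        (p i - q i) * ∏ j ∈ s, p j + q i * (∏ j ∈ s, p j - ∏ j ∈ s, q j) := by ring
    rw [h1]
    refine (norm_add_le _ _).trans (add_le_add ?_ ?_)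
    · rw [norm_mul]
      refine mul_le_of_le_one_right (norm_nonneg _) ?_
      rw [norm_prod]
      exact Finset.prod_le_one (fun j _ => norm_nonneg _)
        fun j hj => hp j (Finset.mem_insert_of_mem hj)
    · rw [norm_mul]
      refine (mul_le_of_le_one_left (norm_nonneg _) (hq i (Finset.mem_insert_self i s))).trans ?_
      exact ih (fun j hj => hp j (Finset.mem_insert_of_mem hj))
        (fun j hj => hq j (Finset.mem_insert_of_mem hj))

theorem e_sum {ι : Type} (s : Finset ι) (t : ι → ℝ) : e (∑ i ∈ s, t i) = ∏ i ∈ s, e (t i) := by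
  classical
  induction s using Finset.induction_on with
  | empty => rw [Finset.sum_empty, Finset.prod_empty, e_zero]
  | insert i s hi ih => rw [Finset.sum_insert hi, Finset.prod_insert hi, e_add, ih]

section Final

variable {m N : ℕ} [NeZero N] {S : Sys (m + 1)} {c : Fin (m + 1) → ℝ} {x0 ε s X : ℝ}

/-- the error constant -/
def Mc (c : Fin (m + 1) → ℝ) : ℝ := ∑ i, c i * 4 ^ (c i)

theorem le_Mc (hc : ∀ i, 0 < c i) (i : Fin (m + 1)) : c i * 4 ^ (c i) ≤ Mc c :=
  Finset.single_le_sum (f := fun i => c i * (4 : ℝ) ^ (c i))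
    (fun j _ => mul_nonneg (hc j).le (by positivity)) (Finset.mem_univ i)

omit [NeZero N] in
theorem t_mem (hG : Good S c N x0) (hD : 1 ≤ S.D) {k j : ℕ} (hk : k ∈ S.I) (hj : (j : ℝ) ≤ S.D) :
    1 ≤ S.t (k + j) ∧ S.t (k + j) ≤ 4 := by
  have hD0 : 0 < S.D := by linarith
  rw [Sys.I, Finset.mem_Ico] at hk
  have h1 : (S.u : ℝ) ≤ k := by exact_mod_cast hk.1
  have h2 : (k : ℝ) ≤ S.u + S.T := by exact_mod_cast hk.2.le
  have h3 := hG.u1
  have h4 := hG.u2
  have h5 := hG.ρ0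
  have h6 := hG.ρ1
  have h7 : (0 : ℝ) ≤ j := Nat.cast_nonneg _
  unfold Sys.t
  push_cast
  constructor
  · rw [le_div_iff₀ hD0]; linarith
  · rw [div_le_iff₀ hD0]; linarith

omit [NeZero N] in
theorem a_diff (hG : Good S c N x0) (hc : ∀ i, 0 < c i) (hD : 1 ≤ S.D) {k j : ℕ} (hk : k ∈ S.I)
    (hj : (j : ℝ) ≤ S.D) (hP : ∀ i, 0 ≤ S.P i) (i : Fin (m + 1)) :
    |((S.a c i (k + j) - S.a c i k : ℤ) : ℝ)| ≤ S.P i * (Mc c * (j / S.D)) + 1 := by
  have hD0 : 0 < S.D := by linarith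
  refine (floor_sub _ _).trans ?_
  obtain ⟨h1, h2⟩ := t_mem hG hD hk hj
  have h3 := t_mem hG hD (j := 0) hk (by simp; linarith)
  rw [add_zero] at h3
  rw [← mul_sub, abs_mul, abs_of_nonneg (hP i)]
  have h4 := rpow_lip (hc i) h3.1 h3.2 h1 h2
  have h5 : |S.t (k + j) - S.t k| = j / S.D := by
    have : S.t (k + j) - S.t k = j / S.D := by
      unfold Sys.t
      push_cast
      ring
    rw [this, abs_of_nonneg (by positivity)]
  rw [h5] at h4
  have h6 : c i * 4 ^ (c i) * (j / S.D) ≤ Mc c * (j / S.D) :=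
    mul_le_mul_of_nonneg_right (le_Mc hc i) (by positivity)
  have h7 := mul_le_mul_of_nonneg_left (h4.trans h6) (hP i)
  linarith

end Final

theorem ds_of_us (m : ℕ) (c : Fin (m + 1) → ℝ) (hc : ∀ i, 0 < c i) (s : ℝ) (hs0 : 0 ≤ s)
    (hs : s < c (Fin.last m))
    (h : ∀ ε : ℝ, 0 < ε → UsP m c s ε) : ∀ ε : ℝ, 0 < ε → DsP m c s ε := by
  intro ε0 hε0
  -- reduce to `ε ≤ 1`
  set ε := min ε0 1 with hεdef
  have hε : 0 < ε := lt_min hε0 one_pos
  have hε1 : ε ≤ 1 := min_le_right _ _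
  have hεε0 : ε ≤ ε0 := min_le_left _ _
  -- the smaller parameter
  obtain ⟨i0, -, hi0⟩ := Finset.exists_min_image (univ : Finset (Fin (m + 1))) c
    Finset.univ_nonempty
  set η := min (ε / 4) (min (c i0 / 4) ((c (Fin.last m) - s) / 4)) with hηdef
  have hη : 0 < η := lt_min (by linarith) (lt_min (by linarith [hc i0]) (by linarith))
  have hηε : η ≤ ε / 4 := min_le_left _ _
  have hηc : ∀ i, η ≤ c i / 4 := fun i =>
    ((min_le_right _ _).trans (min_le_left _ _)).trans (by linarith [hi0 i (Finset.mem_univ i)])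
  have hηs : η ≤ (c (Fin.last m) - s) / 4 := (min_le_right _ _).trans (min_le_right _ _)
  obtain ⟨x0, hx0, hx0η, C, hC, σ, hσ, hσ', D0, hD0, H⟩ :=
    stages m c s η hη hηc hηs (h η hη) univ
  have hC0 : (0 : ℝ) < C := by exact_mod_cast hC
  -- constants
  have hMc0 : 0 ≤ Mc c := Finset.sum_nonneg fun i _ => mul_nonneg (hc i).le (by positivity)
  set A0 : ℝ := 8 * (m + 1) * (Mc c + 2) with hA0
  have hA0pos : 0 < A0 := by positivity
  refine ⟨x0, hx0, C + 1, min σ (ε / (4 * C)), lt_min hσ (by positivity),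
    max D0 ((4 * A0) ^ (2 / ε)), ?_⟩
  intro S N _ hD hG δ hδσ hδ X hQX hX hX' hw f0 f hh hf0 hf hfl hform
  have hDa : D0 ≤ S.D := (le_max_left _ _).trans hD
  have hD4 : 4 ≤ S.D := hD0.trans hDa
  have hD1 : 1 ≤ S.D := by linarith
  have hDpos : 0 < S.D := by linarith
  have hδ0 : 0 < δ := (Real.rpow_pos_of_pos hDpos _).trans_le hδσ
  have hR2 : 2 ≤ δ⁻¹ := two_le_inv hδ0 hδ
  have hQD : S.D ^ (2 : ℝ) ≤ (S.Q : ℝ) := hG.Q1
  have hQ0 : (0 : ℝ) < S.Q := (Real.rpow_pos_of_pos hDpos _).trans_le hQD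
  have hXi0 : ∀ j, 0 < XiOf S X j := fun j => hQ0.trans_le (le_XiOf hQX j)
  have hσa : min σ (ε / (4 * C)) ≤ σ := min_le_left _ _
  have hσb : min σ (ε / (4 * C)) ≤ ε / (4 * C) := min_le_right _ _
  obtain ⟨f', hN', -, hF'⟩ := H S N hDa hG δ
    ((Real.rpow_le_rpow_of_exponent_le hD1 (by linarith)).trans hδσ) hδ X hQX
    (le_trans (mul_le_mul_of_nonneg_left (Real.rpow_le_rpow_of_exponent_le hD1 (by linarith))
      (Nat.cast_nonneg _)) hX) hX' hw f0 f hh hf0
    (fun i => by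
      unfold XiOf
      split_ifs with hi
      · rw [hi]; exact hfl
      · exact hf i) hform
  choose b z g hz hg hlip hfr hψ using fun i => hN' i (Finset.mem_univ i)
  -- sizes of `P`
  have hP : ∀ i, S.D ^ (2 : ℝ) ≤ S.P i := by
    intro i
    refine le_trans ?_ (hG.P1 i)
    calc S.D ^ (2 : ℝ) = S.D ^ (2 : ℝ) * 1 := (mul_one _).symm
      _ ≤ S.Q * S.D ^ (c i - x0) := by
        refine mul_le_mul hQD (Real.one_le_rpow hD1 ?_) zero_le_one hQ0.le
        linarith [hηc i]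
  have hP0 : ∀ i, 0 < S.P i := fun i => (Real.rpow_pos_of_pos hDpos _).trans_le (hP i)
  refine ⟨fun i => fr (b i), ?_, ?_, ?_⟩
  · intro i
    refine (hfr i).trans ?_
    have h1 := le_XiOf hQX i
    have h2 : δ⁻¹ ^ C ≤ δ⁻¹ ^ (C + 1) := pow_le_pow_right₀ (by linarith) (Nat.le_succ C)
    gcongr
  · refine (hfr (Fin.last m)).trans ?_
    have h1 : XiOf S X (Fin.last m) = X := if_pos rfl
    rw [h1]
    have h2 : δ⁻¹ ^ C ≤ δ⁻¹ ^ (C + 1) := pow_le_pow_right₀ (by linarith) (Nat.le_succ C)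
    have h3 : 0 < X := hQ0.trans_le hQX
    gcongr
  intro K hK1 hKD0
  have hKD : (K : ℝ) ≤ S.D ^ (1 - ε) :=
    hKD0.trans (Real.rpow_le_rpow_of_exponent_le hD1 (by linarith))
  have hKD' : (K : ℝ) ≤ S.D := by
    refine hKD.trans ?_
    calc S.D ^ (1 - ε) ≤ S.D ^ (1 : ℝ) := Real.rpow_le_rpow_of_exponent_le hD1 (by linarith)
      _ = S.D := Real.rpow_one _
  -- decomposition of the form
  set E : ℕ → ℂ := fun k => hw k * ∏ i, ch (b i) (S.a c i k : ZMod N) with hE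
  set g0 : ZMod N → ℂ := fun x => f0 x * ∏ i, (z i * ch (b i) x) with hg0
  set V : ℕ → ℂ := fun k => 𝔼 x : ZMod N, g0 x * ∏ i, g i (x + (S.a c i k : ZMod N)) with hV
  have hg0b : ∀ x, ‖g0 x‖ ≤ 1 := by
    intro x
    rw [hg0, norm_mul, norm_prod]
    refine mul_le_one₀ (hf0.bdd x) (Finset.prod_nonneg fun i _ => norm_nonneg _) ?_
    refine Finset.prod_le_one (fun i _ => norm_nonneg _) fun i _ => ?_
    rw [norm_mul, norm_ch, mul_one]
    exact hz i
  have hEb : ∀ k, ‖E k‖ ≤ 1 := by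
    intro k
    rw [hE, norm_mul, norm_prod]
    refine mul_le_one₀ (hh k) (Finset.prod_nonneg fun i _ => norm_nonneg _) ?_
    exact Finset.prod_le_one (fun i _ => norm_nonneg _) fun i _ => (norm_ch _ _).le
  have hVb : ∀ k, ‖V k‖ ≤ 1 := by
    intro k
    rw [hV]
    refine (norm_expect_le' _ _).trans ?_
    calc 𝔼 x : ZMod N, ‖g0 x * ∏ i, g i (x + (S.a c i k : ZMod N))‖ ≤ 𝔼 _x : ZMod N, (1 : ℝ) := by
          refine Finset.expect_le_expect fun x _ => ?_
          rw [norm_mul, norm_prod]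
          refine mul_le_one₀ (hg0b x) (Finset.prod_nonneg fun i _ => norm_nonneg _) ?_
          exact Finset.prod_le_one (fun i _ => norm_nonneg _) fun i _ => hg i _
      _ = 1 := Finset.expect_const Finset.univ_nonempty 1
  have hdec : form S c hw f0 f' = 𝔼 k ∈ S.I, E k * V k := by
    unfold form
    refine Finset.expect_congr rfl fun k _ => ?_
    change hw k * 𝔼 x : ZMod N, f0 x * ∏ i, f' i (x + (S.a c i k : ZMod N)) =
      (hw k * ∏ i, ch (b i) (S.a c i k : ZMod N)) *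
        𝔼 x : ZMod N, (f0 x * ∏ i, (z i * ch (b i) x)) * ∏ i, g i (x + (S.a c i k : ZMod N))
    rw [mul_assoc (hw k), Finset.mul_expect univ _ (∏ i, ch (b i) (S.a c i k : ZMod N))]
    congr 1
    refine Finset.expect_congr rfl fun x _ => ?_
    have h1 : ∏ i, f' i (x + (S.a c i k : ZMod N)) =
        (∏ i, (z i * ch (b i) x)) * ((∏ i, ch (b i) (S.a c i k : ZMod N)) *
          ∏ i, g i (x + (S.a c i k : ZMod N))) := by
      rw [← Finset.prod_mul_distrib, ← Finset.prod_mul_distrib]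
      refine Finset.prod_congr rfl fun i _ => ?_
      rw [hψ i, ch_add]
      ring
    rw [h1]
    ring
  -- asymptotics
  have hT0 : 0 < S.D ^ (1 - x0) := Real.rpow_pos_of_pos hDpos _
  have hTpos : (0 : ℝ) < S.T := hT0.trans_le hG.T1
  have hT1 : 1 ≤ S.T := by exact_mod_cast hTpos
  have hDε : S.D ^ (-(ε / 4)) ≤ δ ^ C := by
    calc S.D ^ (-(ε / 4)) = (S.D ^ (-(ε / (4 * C)))) ^ C := by
          rw [← Real.rpow_natCast, ← Real.rpow_mul hDpos.le]
          congr 1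
          field_simp
      _ ≤ δ ^ C := by
          refine pow_le_pow_left₀ (Real.rpow_nonneg hDpos.le _) (le_trans ?_ hδσ) C
          exact Real.rpow_le_rpow_of_exponent_le hD1 (by linarith)
  have hDinv : δ⁻¹ ^ C ≤ S.D ^ (ε / 4) := by
    rw [inv_pow, inv_le_comm₀ (by positivity) (Real.rpow_pos_of_pos hDpos _), ← Real.rpow_neg hDpos.le]
    exact hDε
  have hbig : 4 * A0 ≤ S.D ^ (ε / 2) := by
    have h1 : (4 * A0) ^ (2 / ε) ≤ S.D := (le_max_right _ _).trans hD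
    calc 4 * A0 = ((4 * A0) ^ (2 / ε)) ^ (ε / 2) := by
          rw [← Real.rpow_mul (by positivity)]
          have : 2 / ε * (ε / 2) = 1 := by field_simp
          rw [this, Real.rpow_one]
      _ ≤ S.D ^ (ε / 2) := Real.rpow_le_rpow (by positivity) h1 (by positivity)
  have hsmall : 2 * A0 * S.D ^ (-(3 * ε / 4)) ≤ δ ^ C / 2 := by
    have h1 : S.D ^ (-(3 * ε / 4)) = S.D ^ (-(ε / 2)) * S.D ^ (-(ε / 4)) := by
      rw [← Real.rpow_add hDpos]
      congr 1
      ring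
    have h2 : 4 * A0 * S.D ^ (-(ε / 2)) ≤ 1 := by
      rw [Real.rpow_neg hDpos.le, mul_inv_le_iff₀ (Real.rpow_pos_of_pos hDpos _), one_mul]
      exact hbig
    calc 2 * A0 * S.D ^ (-(3 * ε / 4)) = (4 * A0 * S.D ^ (-(ε / 2))) * S.D ^ (-(ε / 4)) / 2 := by
          rw [h1]; ring
      _ ≤ 1 * δ ^ C / 2 := by
          gcongr
      _ = δ ^ C / 2 := by ring
  -- first error: shifts
  set η' := S.D ^ (-(3 * ε / 4)) with hη'
  have hη'0 : 0 < η' := Real.rpow_pos_of_pos hDpos _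
  have hKT : 2 * (K : ℝ) / S.T ≤ 2 * η' := by
    rw [div_le_iff₀ hTpos]
    have h1 : S.D ^ (1 - ε) ≤ η' * S.D ^ (1 - x0) := by
      rw [hη', ← Real.rpow_add hDpos]
      exact Real.rpow_le_rpow_of_exponent_le hD1 (by linarith)
    have h2 := mul_le_mul_of_nonneg_left hG.T1 hη'0.le
    nlinarith [hKD]
  -- second error: variation of `V`
  have hVd : ∀ k ∈ S.I, ∀ j : ℕ, j < K →
      ‖V (k + j) - V k‖ ≤ (m + 1) * (4 * (Mc c + 1)) * η' := by
    intro k hk j hj
    have hjK : (j : ℝ) ≤ K := by exact_mod_cast hj.le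
    have hjD : (j : ℝ) ≤ S.D := hjK.trans hKD'
    have hterm : ∀ i, 4 * |((S.a c i (k + j) - S.a c i k : ℤ) : ℝ)| / (S.P i * S.D ^ (-η)) ≤
        4 * (Mc c + 1) * η' := by
      intro i
      have h1 := a_diff hG hc hD1 hk hjD (fun i => (hP0 i).le) i
      have h2 : 0 < S.P i * S.D ^ (-η) := mul_pos (hP0 i) (Real.rpow_pos_of_pos hDpos _)
      rw [div_le_iff₀ h2]
      have h3 : (j : ℝ) / S.D ≤ S.D ^ (-ε) := by
        rw [div_le_iff₀ hDpos]
        calc (j : ℝ) ≤ S.D ^ (1 - ε) := hjK.trans hKD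
          _ = S.D ^ (-ε) * S.D := by
            rw [← Real.rpow_add_one hDpos.ne']
            congr 1
            ring
      have h4 : S.D ^ (-ε) ≤ η' * S.D ^ (-η) := by
        rw [hη', ← Real.rpow_add hDpos]
        exact Real.rpow_le_rpow_of_exponent_le hD1 (by linarith)
      have h5 : (1 : ℝ) ≤ S.P i * (η' * S.D ^ (-η)) := by
        calc (1 : ℝ) ≤ S.D ^ (2 - ε) := Real.one_le_rpow hD1 (by linarith)
          _ = S.D ^ (2 : ℝ) * S.D ^ (-ε) := by rw [← Real.rpow_add hDpos]; congr 1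
          _ ≤ S.P i * (η' * S.D ^ (-η)) :=
            mul_le_mul (hP i) h4 (Real.rpow_nonneg hDpos.le _) (hP0 i).le
      have h6 : S.P i * (Mc c * (j / S.D)) ≤ S.P i * (Mc c * (η' * S.D ^ (-η))) :=
        mul_le_mul_of_nonneg_left (mul_le_mul_of_nonneg_left (h3.trans h4) hMc0) (hP0 i).le
      calc 4 * |((S.a c i (k + j) - S.a c i k : ℤ) : ℝ)|
          ≤ 4 * (S.P i * (Mc c * (j / S.D)) + 1) := by linarith
        _ ≤ 4 * (S.P i * (Mc c * (η' * S.D ^ (-η))) + S.P i * (η' * S.D ^ (-η))) := by linarith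
        _ = _ := by ring
    have hdiff : V (k + j) - V k = 𝔼 x : ZMod N, g0 x *
        (∏ i, g i (x + (S.a c i (k + j) : ZMod N)) - ∏ i, g i (x + (S.a c i k : ZMod N))) := by
      rw [hV]
      change 𝔼 x : ZMod N, g0 x * ∏ i, g i (x + (S.a c i (k + j) : ZMod N)) -
        𝔼 x : ZMod N, g0 x * ∏ i, g i (x + (S.a c i k : ZMod N)) = _
      rw [← Finset.expect_sub_distrib]
      exact Finset.expect_congr rfl fun x _ => by ring
    rw [hdiff]
    refine (norm_expect_le' _ _).trans ?_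
    calc 𝔼 x : ZMod N, ‖g0 x * (∏ i, g i (x + (S.a c i (k + j) : ZMod N)) -
          ∏ i, g i (x + (S.a c i k : ZMod N)))‖
        ≤ 𝔼 _x : ZMod N, ((m + 1) * (4 * (Mc c + 1)) * η' : ℝ) := by
          refine Finset.expect_le_expect fun x _ => ?_
          rw [norm_mul]
          refine (mul_le_of_le_one_left (norm_nonneg _) (hg0b x)).trans ?_
          refine (prod_sub_prod univ (fun i _ => hg i _) (fun i _ => hg i _)).trans ?_
          calc ∑ i, ‖g i (x + (S.a c i (k + j) : ZMod N)) - g i (x + (S.a c i k : ZMod N))‖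
              ≤ ∑ _i : Fin (m + 1), 4 * (Mc c + 1) * η' := by
                refine Finset.sum_le_sum fun i _ => ?_
                have h7 := hlip i (x + (S.a c i k : ZMod N)) (S.a c i (k + j) - S.a c i k)
                have h8 : x + (S.a c i k : ZMod N) + ((S.a c i (k + j) - S.a c i k : ℤ) : ZMod N) =
                    x + (S.a c i (k + j) : ZMod N) := by
                  push_cast
                  ring
                rw [h8] at h7
                exact h7.trans (hterm i)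
            _ = (m + 1) * (4 * (Mc c + 1)) * η' := by
                rw [Finset.sum_const, Finset.card_univ, Fintype.card_fin, nsmul_eq_mul]
                push_cast
                ring
      _ = _ := Finset.expect_const Finset.univ_nonempty _
  -- third error: integer parts
  have hEd : ∀ k, ‖E k - hw k * e (∑ i, fr (b i) * S.P i * (S.t k) ^ (c i))‖ ≤
      8 * (m + 1) * η' := by
    intro k
    have h1 : E k = hw k * e (∑ i, fr (b i) * (S.a c i k : ℝ)) := by
      change hw k * ∏ i, ch (b i) (S.a c i k : ZMod N) = _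
      rw [e_sum]
      congr 1
      exact Finset.prod_congr rfl fun i _ => ch_int _ _
    rw [h1, ← mul_sub, norm_mul]
    refine (mul_le_of_le_one_left (norm_nonneg _) (hh k)).trans ?_
    refine (norm_e_sub_e_le _ _).trans ?_
    rw [← Finset.sum_sub_distrib]
    have h2 : |∑ i, (fr (b i) * (S.a c i k : ℝ) - fr (b i) * S.P i * (S.t k) ^ (c i))| ≤
        (m + 1) * η' := by
      refine (Finset.abs_sum_le_sum_abs _ _).trans ?_
      calc ∑ i, |fr (b i) * (S.a c i k : ℝ) - fr (b i) * S.P i * (S.t k) ^ (c i)|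
          ≤ ∑ _i : Fin (m + 1), η' := by
            refine Finset.sum_le_sum fun i _ => ?_
            rw [mul_assoc, ← mul_sub, abs_mul]
            have h3 : |(S.a c i k : ℝ) - S.P i * (S.t k) ^ (c i)| ≤ 1 := by
              have h4 := Int.floor_le (S.P i * (S.t k) ^ (c i))
              have h5 := Int.lt_floor_add_one (S.P i * (S.t k) ^ (c i))
              unfold Sys.a
              rw [abs_le]
              constructor <;> linarith
            refine (mul_le_of_le_one_right (abs_nonneg _) h3).trans ((hfr i).trans ?_)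
            rw [div_le_iff₀ (hXi0 i)]
            calc δ⁻¹ ^ C ≤ S.D ^ (ε / 4) := hDinv
              _ ≤ η' * S.D ^ (2 : ℝ) := by
                rw [hη', ← Real.rpow_add hDpos]
                exact Real.rpow_le_rpow_of_exponent_le hD1 (by linarith)
              _ ≤ η' * XiOf S X i :=
                mul_le_mul_of_nonneg_left (hQD.trans (le_XiOf hQX i)) hη'0.le
        _ = (m + 1) * η' := by
            rw [Finset.sum_const, Finset.card_univ, Fintype.card_fin, nsmul_eq_mul]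
            push_cast
            ring
    have h6 : 2 * Real.pi ≤ 8 := by linarith [Real.pi_le_four]
    calc 2 * Real.pi * |∑ i, (fr (b i) * (S.a c i k : ℝ) - fr (b i) * S.P i * (S.t k) ^ (c i))|
        ≤ 8 * ((m + 1) * η') := mul_le_mul h6 h2 (abs_nonneg _) (by norm_num)
      _ = _ := by ring
  -- conclusion
  have hI : S.I.Nonempty := by
    rw [Sys.I, Finset.nonempty_Ico]
    omega
  have hKne : (range K).Nonempty := Finset.nonempty_range_iff.mpr (by omega)
  have hGb : ∀ k, ‖E k * V k‖ ≤ 1 := fun k => by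
    rw [norm_mul]
    exact mul_le_one₀ (hEb k) (norm_nonneg _) (hVb k)
  have e1 : ‖𝔼 k ∈ S.I, E k * V k - 𝔼 j ∈ range K, 𝔼 k ∈ S.I, E (k + j) * V (k + j)‖ ≤ 2 * η' := by
    have h1 : 𝔼 k ∈ S.I, E k * V k - 𝔼 j ∈ range K, 𝔼 k ∈ S.I, E (k + j) * V (k + j) =
        𝔼 j ∈ range K, (𝔼 k ∈ S.I, E k * V k - 𝔼 k ∈ S.I, E (k + j) * V (k + j)) := by
      rw [Finset.expect_sub_distrib, Finset.expect_const hKne]
    rw [h1]
    refine (norm_expect_le' _ _).trans ?_
    calc 𝔼 j ∈ range K, ‖𝔼 k ∈ S.I, E k * V k - 𝔼 k ∈ S.I, E (k + j) * V (k + j)‖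
        ≤ 𝔼 _j ∈ range K, 2 * η' := by
          refine Finset.expect_le_expect fun j hj => ?_
          have h2 := shift_expect hGb S.u S.T j hT1
          refine h2.trans (le_trans ?_ hKT)
          have h3 : (j : ℝ) ≤ K := by exact_mod_cast (Finset.mem_range.mp hj).le
          gcongr
      _ = 2 * η' := Finset.expect_const hKne _
  have e2 : ‖𝔼 j ∈ range K, 𝔼 k ∈ S.I, E (k + j) * V (k + j) -
      𝔼 j ∈ range K, 𝔼 k ∈ S.I, E (k + j) * V k‖ ≤ (m + 1) * (4 * (Mc c + 1)) * η' := by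
    rw [← Finset.expect_sub_distrib]
    refine (norm_expect_le' _ _).trans ?_
    calc 𝔼 j ∈ range K, ‖𝔼 k ∈ S.I, E (k + j) * V (k + j) - 𝔼 k ∈ S.I, E (k + j) * V k‖
        ≤ 𝔼 _j ∈ range K, ((m + 1) * (4 * (Mc c + 1)) * η' : ℝ) := by
          refine Finset.expect_le_expect fun j hj => ?_
          rw [← Finset.expect_sub_distrib]
          refine (norm_expect_le' _ _).trans ?_
          calc 𝔼 k ∈ S.I, ‖E (k + j) * V (k + j) - E (k + j) * V k‖
              ≤ 𝔼 _k ∈ S.I, ((m + 1) * (4 * (Mc c + 1)) * η' : ℝ) := by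
                refine Finset.expect_le_expect fun k hk => ?_
                rw [← mul_sub, norm_mul]
                exact (mul_le_of_le_one_left (norm_nonneg _) (hEb _)).trans
                  (hVd k hk j (Finset.mem_range.mp hj))
            _ = _ := Finset.expect_const hI _
      _ = _ := Finset.expect_const hKne _
  have e3 : ‖𝔼 j ∈ range K, 𝔼 k ∈ S.I, E (k + j) * V k‖ ≤
      𝔼 k ∈ S.I, ‖𝔼 j ∈ range K, E (k + j)‖ := by
    rw [Finset.expect_comm]
    refine (norm_expect_le' _ _).trans (Finset.expect_le_expect fun k _ => ?_)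
    rw [← Finset.expect_mul, norm_mul]
    exact mul_le_of_le_one_right (norm_nonneg _) (hVb k)
  have e4 : 𝔼 k ∈ S.I, ‖𝔼 j ∈ range K, E (k + j)‖ ≤
      𝔼 k ∈ S.I, ‖𝔼 j ∈ range K, hw (k + j) *
        e (∑ i, fr (b i) * S.P i * (S.t (k + j)) ^ (c i))‖ + 8 * (m + 1) * η' := by
    rw [← Finset.expect_const hI (8 * (m + 1) * η' : ℝ), ← Finset.expect_add_distrib]
    refine Finset.expect_le_expect fun k _ => ?_
    have h1 : 𝔼 j ∈ range K, E (k + j) = 𝔼 j ∈ range K, hw (k + j) *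
        e (∑ i, fr (b i) * S.P i * (S.t (k + j)) ^ (c i)) +
        𝔼 j ∈ range K, (E (k + j) - hw (k + j) *
          e (∑ i, fr (b i) * S.P i * (S.t (k + j)) ^ (c i))) := by
      rw [← Finset.expect_add_distrib]
      exact Finset.expect_congr rfl fun j _ => by ring
    rw [h1]
    refine (norm_add_le _ _).trans (add_le_add le_rfl ?_)
    refine (norm_expect_le' _ _).trans ?_
    calc 𝔼 j ∈ range K, ‖E (k + j) - hw (k + j) *
          e (∑ i, fr (b i) * S.P i * (S.t (k + j)) ^ (c i))‖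
        ≤ 𝔼 _j ∈ range K, (8 * (m + 1) * η' : ℝ) := Finset.expect_le_expect fun j _ => hEd _
      _ = _ := Finset.expect_const hKne _
  have hfin : δ ^ C / 2 ≤ 𝔼 k ∈ S.I, ‖𝔼 j ∈ range K, hw (k + j) *
        e (∑ i, fr (b i) * S.P i * (S.t (k + j)) ^ (c i))‖ := by
    have h1 : ‖𝔼 k ∈ S.I, E k * V k‖ ≤ 2 * η' + (m + 1) * (4 * (Mc c + 1)) * η' +
        ‖𝔼 j ∈ range K, 𝔼 k ∈ S.I, E (k + j) * V k‖ := by
      have h2 : 𝔼 k ∈ S.I, E k * V k =
          (𝔼 k ∈ S.I, E k * V k - 𝔼 j ∈ range K, 𝔼 k ∈ S.I, E (k + j) * V (k + j)) +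
          (𝔼 j ∈ range K, 𝔼 k ∈ S.I, E (k + j) * V (k + j) -
            𝔼 j ∈ range K, 𝔼 k ∈ S.I, E (k + j) * V k) +
          𝔼 j ∈ range K, 𝔼 k ∈ S.I, E (k + j) * V k := by ring
      calc ‖𝔼 k ∈ S.I, E k * V k‖ = _ := congrArg norm h2
        _ ≤ _ := (norm_add₃_le).trans (by linarith)
    rw [← hdec] at h1
    have h3 : 2 * η' + (m + 1) * (4 * (Mc c + 1)) * η' + 8 * (m + 1) * η' ≤ 2 * A0 * η' := by
      have h4 : (0 : ℝ) ≤ m := Nat.cast_nonneg _
      have h5 : 2 + (m + 1) * (4 * (Mc c + 1)) + 8 * (m + 1) ≤ 2 * A0 := by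
        rw [hA0]
        nlinarith [mul_nonneg h4 hMc0]
      calc 2 * η' + (m + 1) * (4 * (Mc c + 1)) * η' + 8 * (m + 1) * η'
          = (2 + (m + 1) * (4 * (Mc c + 1)) + 8 * (m + 1)) * η' := by ring
        _ ≤ _ := mul_le_mul_of_nonneg_right h5 hη'0.le
    linarith
  refine le_trans ?_ hfin
  calc δ ^ (C + 1) = δ ^ C * δ := pow_succ _ _
    _ ≤ δ ^ C * (1 / 2) := mul_le_mul_of_nonneg_left hδ (by positivity)
    _ = δ ^ C / 2 := by ring

end

end Pool.Agent.Helper57.NX
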