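import Pool.Agent.Helper61.NX.DsOfUs

/-!
Project NX, module NX-33, first part: lattice refinement of the indicator function of a set.
-/

set_option autoImplicit false

open Finset
open scoped BigOperators ComplexConjugate

namespace Pool.Agent.Helper57.NX

noncomputable section

/-- indicator function -/
def ind (A : Finset ℕ) (n : ℕ) : ℝ := if n ∈ A then 1 else 0

theorem ind_nonneg (A : Finset ℕ) (n : ℕ) : 0 ≤ ind A n := by
  unfold ind
  split_ifs <;> norm_num

theorem ind_le_one (A : Finset ℕ) (n : ℕ) : ind A n ≤ 1 := by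
  unfold ind
  split_ifs <;> norm_num

theorem sum_blocks (Q B : ℕ) (G : ℕ → ℝ) :
    ∑ n ∈ range (Q * B), G n = ∑ w ∈ range B, ∑ r ∈ range Q, G (Q * w + r) := by
  induction B with
  | zero => simp
  | succ B ih =>
    rw [Nat.mul_succ, Finset.sum_range_add, ih, Finset.sum_range_succ]

theorem block_sum (A : Finset ℕ) (Q B v : ℕ) (hQ : 0 < Q) :
    (Q : ℝ) * ∑ w ∈ range B, ind A (v / Q + 1 + w) ≤
      ∑ t ∈ range (Q * (B + 1)), ind A ((v + t) / Q) := by
  set d := Q - v % Q with hd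
  have hmod : v % Q < Q := Nat.mod_lt _ hQ
  have hdQ : d ≤ Q := Nat.sub_le _ _
  have hvd : v + d = Q * (v / Q + 1) := by
    have := Nat.div_add_mod v Q
    rw [Nat.mul_succ]
    omega
  have h1 : ∑ t ∈ Ico d (d + Q * B), ind A ((v + t) / Q) ≤
      ∑ t ∈ range (Q * (B + 1)), ind A ((v + t) / Q) := by
    refine Finset.sum_le_sum_of_subset_of_nonneg ?_ fun _ _ _ => ind_nonneg _ _
    intro t ht
    rw [Finset.mem_Ico] at ht
    rw [Finset.mem_range, Nat.mul_succ]
    omega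
  refine le_trans (le_of_eq ?_) h1
  rw [Finset.sum_Ico_eq_sum_range, Nat.add_sub_cancel_left, sum_blocks, Finset.mul_sum]
  refine Finset.sum_congr rfl fun w _ => ?_
  have h2 : ∀ r ∈ range Q, ind A ((v + (d + (Q * w + r))) / Q) = ind A (v / Q + 1 + w) := by
    intro r hr
    congr 1
    have h3 : v + (d + (Q * w + r)) = Q * (v / Q + 1 + w) + r := by
      have : v + (d + (Q * w + r)) = (v + d) + Q * w + r := by ring
      rw [this, hvd]
      ring
    rw [h3, Nat.mul_add_div hQ, Nat.div_eq_of_lt (Finset.mem_range.mp hr), add_zero]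
  rw [Finset.sum_congr rfl h2, Finset.sum_const, Finset.card_range, nsmul_eq_mul]

/-! ### Variation -/

section TVs

variable {N : ℕ} [NeZero N]

theorem count_mod (v l Q r : ℕ) (hQ : 0 < Q) :
    (#((range l).filter fun j => (v + j) % Q = r) : ℝ) ≤ l / Q + 1 := by
  rcases ((range l).filter fun j => (v + j) % Q = r).eq_empty_or_nonempty with h | ⟨j0, hj0⟩
  · rw [h, Finset.card_empty, Nat.cast_zero]
    positivity
  · have hj0' := (Finset.mem_filter.mp hj0).2
    have h1 : (range l).filter (fun j => (v + j) % Q = r) ⊆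
        (range l).filter (fun j => j ≡ j0 [MOD Q]) := by
      intro j hj
      rw [Finset.mem_filter] at hj ⊢
      refine ⟨hj.1, ?_⟩
      have h2 : v + j ≡ v + j0 [MOD Q] := hj.2.trans hj0'.symm
      exact Nat.ModEq.add_left_cancel' v h2
    have h3 := Finset.card_le_card h1
    rw [← Nat.count_eq_card_filter_range, ← Nat.count_eq_card_filter_range,
      Nat.count_modEq_card l hQ j0] at h3
    rw [← Nat.count_eq_card_filter_range]
    have h4 : l / Q + (if j0 % Q < l % Q then 1 else 0) ≤ l / Q + 1 := by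
      split_ifs <;> omega
    have h5 : ((l / Q : ℕ) : ℝ) ≤ (l : ℝ) / Q := Nat.cast_div_le
    have h6 : ((Nat.count (fun j => (v + j) % Q = r) l : ℕ) : ℝ) ≤ ((l / Q + 1 : ℕ) : ℝ) := by
      exact_mod_cast h3.trans h4
    push_cast at h6
    linarith

theorem tv_of_jumps {Q : ℕ} (hQ : 0 < Q) (hQN : Q ∣ N) (R : Finset ℕ) (g : ZMod N → ℂ)
    (hg : ∀ x, ‖g x‖ ≤ 1) (hj : ∀ x : ZMod N, x.val % Q ∉ R → g (x + 1) = g x) :
    TV (2 * R.card) Q g := by
  intro x l
  have h0 : ∀ j : ℕ, (x + (j : ZMod N)).val % Q = (x.val + j) % Q := by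
    intro j
    rw [ZMod.val_add, ZMod.val_natCast, Nat.mod_mod_of_dvd _ hQN, Nat.add_mod,
      Nat.mod_mod_of_dvd _ hQN, ← Nat.add_mod]
  have h1 : ∀ j ∈ range l, ‖g (x + (j : ZMod N) + 1) - g (x + (j : ZMod N))‖ ≤
      ∑ r ∈ R, if (x.val + j) % Q = r then (2 : ℝ) else 0 := by
    intro j _
    by_cases h2 : (x.val + j) % Q ∈ R
    · rw [Finset.sum_ite_eq, if_pos h2]
      refine (norm_sub_le _ _).trans ?_
      linarith [hg (x + (j : ZMod N) + 1), hg (x + (j : ZMod N))]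
    · rw [← h0] at h2
      rw [hj _ h2, sub_self, norm_zero]
      exact Finset.sum_nonneg fun r _ => by split_ifs <;> norm_num
  refine (Finset.sum_le_sum h1).trans ?_
  rw [Finset.sum_comm]
  calc ∑ r ∈ R, ∑ j ∈ range l, (if (x.val + j) % Q = r then (2 : ℝ) else 0)
      ≤ ∑ _r ∈ R, 2 * ((l : ℝ) / Q + 1) := by
        refine Finset.sum_le_sum fun r _ => ?_
        rw [← Finset.sum_filter, Finset.sum_const, nsmul_eq_mul, mul_comm]
        exact mul_le_mul_of_nonneg_left (count_mod x.val l Q r hQ) (by norm_num)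
    _ = _ := by
        rw [Finset.sum_const, nsmul_eq_mul]
        ring

theorem div_succ {n Q : ℕ} (h : n % Q + 1 < Q) : (n + 1) / Q = n / Q ∧ (n + 1) % Q = n % Q + 1 := by
  have h1 : n + 1 = Q * (n / Q) + (n % Q + 1) := by
    have := Nat.div_add_mod n Q
    omega
  constructor
  · conv_lhs => rw [h1]
    rw [Nat.mul_add_div (by omega), Nat.div_eq_of_lt h, add_zero]
  · conv_lhs => rw [h1]
    rw [Nat.mul_add_mod, Nat.mod_eq_of_lt h]

theorem val_succ {Q : ℕ} (hQ : 0 < Q) (hQN : Q ∣ N) (x : ZMod N) (h : x.val % Q ≠ Q - 1) :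
    (x + 1).val = x.val + 1 ∧ x.val % Q + 1 < Q := by
  have h0 : x.val % Q < Q := Nat.mod_lt _ hQ
  refine ⟨?_, by omega⟩
  have h1 : x.val + 1 < N := by
    have h2 := ZMod.val_lt x
    by_contra h3
    have h4 : x.val = N - 1 := by omega
    apply h
    obtain ⟨M, hM⟩ := hQN
    have hM0 : 0 < M := by
      rcases Nat.eq_zero_or_pos M with h5 | h5
      · rw [h5, mul_zero] at hM
        exact absurd hM (NeZero.ne N)
      · exact h5
    obtain ⟨M', rfl⟩ : ∃ M', M = M' + 1 := ⟨M - 1, by omega⟩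
    have h6 : N - 1 = Q * M' + (Q - 1) := by
      rw [hM, Nat.mul_succ]
      omega
    rw [h4, h6, Nat.mul_add_mod, Nat.mod_eq_of_lt (by omega)]
  rcases Nat.lt_or_ge 1 N with h7 | h7
  · have := ZMod.val_add_of_lt (a := x) (b := 1) (by rwa [ZMod.val_one'' (by omega)])
    rw [this, ZMod.val_one'' (by omega)]
  · omega

/-- the refined indicator function -/
def gA (A : Finset ℕ) (Q : ℕ) (y : ZMod N) : ℝ := ind A (y.val / Q)

/-- the refined indicator function, restricted to the beginnings of the blocks -/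
def g0A (A : Finset ℕ) (Q : ℕ) (η : ℝ) (y : ZMod N) : ℝ :=
  if ((y.val % Q : ℕ) : ℝ) < η * Q then ind A (y.val / Q) else 0

omit [NeZero N] in
theorem gA_nonneg (A : Finset ℕ) (Q : ℕ) (y : ZMod N) : 0 ≤ gA A Q y := ind_nonneg _ _

omit [NeZero N] in
theorem gA_le_one (A : Finset ℕ) (Q : ℕ) (y : ZMod N) : gA A Q y ≤ 1 := ind_le_one _ _

omit [NeZero N] in
theorem g0A_nonneg (A : Finset ℕ) (Q : ℕ) (η : ℝ) (y : ZMod N) : 0 ≤ g0A A Q η y := by
  unfold g0A
  split_ifs
  · exact ind_nonneg _ _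
  · exact le_rfl

omit [NeZero N] in
theorem g0A_le_one (A : Finset ℕ) (Q : ℕ) (η : ℝ) (y : ZMod N) : g0A A Q η y ≤ 1 := by
  unfold g0A
  split_ifs
  · exact ind_le_one _ _
  · norm_num

theorem gA_adm (A : Finset ℕ) {Q : ℕ} (hQ : 0 < Q) (hQN : Q ∣ N) :
    Adm 8 Q (fun y : ZMod N => (gA A Q y : ℂ)) := by
  have hb : ∀ y : ZMod N, ‖(gA A Q y : ℂ)‖ ≤ 1 := fun y => by
    rw [Complex.norm_real, Real.norm_eq_abs, abs_of_nonneg (gA_nonneg _ _ _)]
    exact gA_le_one _ _ _
  refine ⟨hb, ?_⟩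
  have h1 := tv_of_jumps hQ hQN {Q - 1} (fun y : ZMod N => (gA A Q y : ℂ)) hb (by
    intro x hx
    rw [Finset.mem_singleton] at hx
    obtain ⟨h2, h3⟩ := val_succ hQ hQN x hx
    change ((ind A ((x + 1).val / Q) : ℝ) : ℂ) = ((ind A (x.val / Q) : ℝ) : ℂ)
    rw [h2, (div_succ h3).1])
  refine h1.mono ?_ (by exact_mod_cast hQ) le_rfl
  rw [Finset.card_singleton]
  norm_num

theorem g0A_adm (A : Finset ℕ) {Q : ℕ} (hQ : 0 < Q) (hQN : Q ∣ N) (η : ℝ) :
    Adm 8 Q (fun y : ZMod N => (g0A A Q η y : ℂ)) := by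
  have hb : ∀ y : ZMod N, ‖(g0A A Q η y : ℂ)‖ ≤ 1 := fun y => by
    rw [Complex.norm_real, Real.norm_eq_abs, abs_of_nonneg (g0A_nonneg _ _ _ _)]
    exact g0A_le_one _ _ _ _
  refine ⟨hb, ?_⟩
  have h1 := tv_of_jumps hQ hQN {Q - 1, ⌈η * Q⌉₊ - 1} (fun y : ZMod N => (g0A A Q η y : ℂ)) hb (by
    intro x hx
    rw [Finset.mem_insert, Finset.mem_singleton, not_or] at hx
    obtain ⟨h2, h3⟩ := val_succ hQ hQN x hx.1
    obtain ⟨h4, h5⟩ := div_succ h3
    have h6 : ((((x.val + 1) % Q : ℕ) : ℝ) < η * Q) ↔ (((x.val % Q : ℕ) : ℝ) < η * Q) := by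
      rw [h5, Nat.cast_add, Nat.cast_one]
      constructor
      · intro h7
        linarith
      · intro h7
        by_contra h8
        push Not at h8
        apply hx.2
        have h9 : ⌈η * Q⌉₊ = x.val % Q + 1 := by
          rw [Nat.ceil_eq_iff (by omega)]
          constructor
          · simpa using h7
          · push_cast
            exact h8
        omega
    change ((g0A A Q η (x + 1) : ℝ) : ℂ) = ((g0A A Q η x : ℝ) : ℂ)
    unfold g0A
    rw [h2, h4]
    simp only [h6])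
  refine h1.mono ?_ (by exact_mod_cast hQ) le_rfl
  have h2 : (#({Q - 1, ⌈η * Q⌉₊ - 1} : Finset ℕ) : ℝ) ≤ 2 := by
    exact_mod_cast Finset.card_le_two
  linarith

end TVs

end

end Pool.Agent.Helper57.NX
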