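import Pool.Agent.Helper61.NX.PatA

/-!
Project NX, module NX-33, second part: the two sides of the count, for one value of `k`.
-/

set_option autoImplicit false

open Finset
open scoped BigOperators ComplexConjugate

namespace Pool.Agent.Helper57.NX

noncomputable section

section

variable {N : ℕ} [NeZero N]

/-- real version of the average -/
def AR (L : ℕ) (g : ZMod N → ℝ) (x : ZMod N) : ℝ := 𝔼 a ∈ range L, g (x + (a : ZMod N))

omit [NeZero N] in
theorem A_ofReal (L : ℕ) (g : ZMod N → ℝ) (x : ZMod N) :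
    A L (fun y => (g y : ℂ)) x = ((AR L g x : ℝ) : ℂ) := by
  rw [A, AR, Finset.expect_eq_sum_div_card, Finset.expect_eq_sum_div_card]
  push_cast
  rfl

omit [NeZero N] in
theorem AR_nonneg (L : ℕ) {g : ZMod N → ℝ} (hg : ∀ x, 0 ≤ g x) (x : ZMod N) : 0 ≤ AR L g x :=
  Finset.expect_nonneg fun _ _ => hg _

/-- real version of the form -/
def formR {l : ℕ} (S : Sys l) (c : Fin l → ℝ) (g0 : ZMod N → ℝ) (g : Fin l → ZMod N → ℝ) : ℝ :=
  𝔼 k ∈ S.I, 𝔼 x : ZMod N, g0 x * ∏ i, g i (x + (S.a c i k : ZMod N))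

theorem form_ofReal {l : ℕ} (S : Sys l) (c : Fin l → ℝ) (g0 : ZMod N → ℝ)
    (g : Fin l → ZMod N → ℝ) :
    form S c 1 (fun x => (g0 x : ℂ)) (fun i x => (g i x : ℂ)) = ((formR S c g0 g : ℝ) : ℂ) := by
  rw [form, formR, Finset.expect_eq_sum_div_card, Finset.expect_eq_sum_div_card]
  push_cast
  congr 1
  refine Finset.sum_congr rfl fun k _ => ?_
  rw [Pi.one_apply, one_mul, Finset.expect_eq_sum_div_card]

theorem val_add_nat (y : ZMod N) (a : ℕ) (h : y.val + a < N) :
    (y + (a : ZMod N)).val = y.val + a := by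
  have h1 : (a : ZMod N).val = a := ZMod.val_natCast_of_lt (by omega)
  rw [ZMod.val_add_of_lt (by rwa [h1]), h1]

theorem AR_gA_ge (A' : Finset ℕ) (Q B : ℕ) (hQ : 0 < Q) (y : ZMod N) (a : ℕ)
    (h : y.val + a + Q * (B + 1) ≤ N) :
    (∑ w ∈ range B, ind A' ((y.val + a) / Q + 1 + w)) / (B + 1) ≤
      AR (Q * (B + 1)) (gA A' Q) (y + (a : ZMod N)) := by
  have hQ0 : (0 : ℝ) < Q := by exact_mod_cast hQ
  have h1 : AR (Q * (B + 1)) (gA A' Q) (y + (a : ZMod N)) =
      (∑ t ∈ range (Q * (B + 1)), ind A' ((y.val + a + t) / Q)) / (Q * (B + 1)) := by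
    rw [AR, Finset.expect_eq_sum_div_card, Finset.card_range]
    push_cast
    congr 1
    refine Finset.sum_congr rfl fun t ht => ?_
    have ht' := Finset.mem_range.mp ht
    have h2 : (y + (a : ZMod N) + (t : ZMod N)).val = y.val + a + t := by
      rw [val_add_nat _ t (by rw [val_add_nat y a (by omega)]; omega), val_add_nat y a (by omega)]
    rw [gA, h2]
  rw [h1, div_le_div_iff₀ (by positivity) (by positivity)]
  have h3 := block_sum A' Q B (y.val + a) hQ
  have h4 : (0 : ℝ) ≤ (B : ℝ) + 1 := by positivity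
  calc (∑ w ∈ range B, ind A' ((y.val + a) / Q + 1 + w)) * (Q * (B + 1))
      = (Q * ∑ w ∈ range B, ind A' ((y.val + a) / Q + 1 + w)) * (B + 1) := by ring
    _ ≤ _ := mul_le_mul_of_nonneg_right h3 h4

end

/-- product of sums of indicators counts tuples -/
theorem prod_count {l : ℕ} (A' : Finset ℕ) (B : ℕ) (v : Fin l → ℕ) :
    ∏ i, ∑ w ∈ range B, ind A' (v i + w) =
      (#((univ : Finset (Fin l → Fin B)).filter fun u => ∀ i, v i + (u i : ℕ) ∈ A') : ℝ) := by
  have h1 : ∀ i, ∑ w ∈ range B, ind A' (v i + w) = ∑ w : Fin B, ind A' (v i + (w : ℕ)) :=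
    fun i => Finset.sum_range fun w => ind A' (v i + w)
  simp_rw [h1]
  rw [Finset.prod_univ_sum, Finset.card_filter]
  push_cast
  have h2 : (Fintype.piFinset fun _ : Fin l => (univ : Finset (Fin B))) = univ :=
    Fintype.piFinset_univ
  rw [h2]
  refine Finset.sum_congr rfl fun u _ => ?_
  by_cases h : ∀ i, v i + (u i : ℕ) ∈ A'
  · rw [if_pos h]
    exact Finset.prod_eq_one fun i _ => if_pos (h i)
  · rw [if_neg h]
    push Not at h
    obtain ⟨i, hi⟩ := h
    exact Finset.prod_eq_zero (Finset.mem_univ i) (if_neg hi)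

section

variable {l : ℕ} (A' : Finset ℕ) (Q Z B : ℕ) (η : ℝ) [NeZero (Q * (2 * Z))]

theorem block_inj (hQ : 0 < Q) {p e p' e' : ℕ} (he : e < Q) (he' : e' < Q)
    (h : Q * p + e = Q * p' + e') : p = p' ∧ e = e' := by
  have h1 := congrArg (· / Q) h
  have h2 := congrArg (· % Q) h
  simp only [Nat.mul_add_div hQ, Nat.mul_add_mod, Nat.div_eq_of_lt he, Nat.div_eq_of_lt he',
    Nat.mod_eq_of_lt he, Nat.mod_eq_of_lt he', add_zero] at h1 h2
  exact ⟨h1, h2⟩

theorem val_block (hA : ∀ p ∈ A', p < Z) {p e : ℕ} (hp : p ∈ A') (he : e < Q) :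
    ((Q * p + e : ℕ) : ZMod (Q * (2 * Z))).val = Q * p + e := by
  refine ZMod.val_natCast_of_lt ?_
  have h1 := hA p hp
  have h2 : Q * (p + 1) ≤ Q * Z := Nat.mul_le_mul_left Q h1
  rw [Nat.mul_succ] at h2
  have h3 : Q * (2 * Z) = Q * Z + Q * Z := by ring
  omega

theorem lower_k (hA : ∀ p ∈ A', p < Z) (hQ : 0 < Q) (a : Fin l → ℕ)
    (ha : ∀ i, a i + Q * (B + 1) ≤ Q * Z) (T : ℝ) (hη0 : 0 ≤ η) (hη1 : η ≤ 1) (hT0 : 0 ≤ T)
    (hT : ∀ e < Q, (e : ℝ) < η * Q → T ≤ (#((A' ×ˢ (univ : Finset (Fin l → Fin B))).filter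
      fun pu => ∀ i, pu.1 + ((e + a i) / Q + 1) + (pu.2 i : ℕ) ∈ A') : ℝ)) :
    η * Q * T / (B + 1) ^ l ≤ ∑ y : ZMod (Q * (2 * Z)), g0A A' Q η y *
      ∏ i, AR (Q * (B + 1)) (gA A' Q) (y + (a i : ZMod (Q * (2 * Z)))) := by
  classical
  set E := (range Q).filter fun e : ℕ => (e : ℝ) < η * Q with hE
  have hQ0 : (0 : ℝ) < Q := by exact_mod_cast hQ
  -- restrict to the image of `(p, e)`
  have h1 : ∑ pe ∈ A' ×ˢ E, g0A A' Q η ((Q * pe.1 + pe.2 : ℕ) : ZMod (Q * (2 * Z))) *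
      ∏ i, AR (Q * (B + 1)) (gA A' Q)
        (((Q * pe.1 + pe.2 : ℕ) : ZMod (Q * (2 * Z))) + (a i : ZMod (Q * (2 * Z)))) ≤
      ∑ y : ZMod (Q * (2 * Z)), g0A A' Q η y *
        ∏ i, AR (Q * (B + 1)) (gA A' Q) (y + (a i : ZMod (Q * (2 * Z)))) := by
    rw [← Finset.sum_image (s := A' ×ˢ E)
      (g := fun pe : ℕ × ℕ => ((Q * pe.1 + pe.2 : ℕ) : ZMod (Q * (2 * Z))))
      (f := fun y => g0A A' Q η y *
        ∏ i, AR (Q * (B + 1)) (gA A' Q) (y + (a i : ZMod (Q * (2 * Z)))))]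
    · refine Finset.sum_le_sum_of_subset_of_nonneg (Finset.subset_univ _) fun y _ _ => ?_
      exact mul_nonneg (g0A_nonneg _ _ _ _)
        (Finset.prod_nonneg fun i _ => AR_nonneg _ (gA_nonneg A' Q) _)
    · rintro ⟨p, e⟩ hpe ⟨p', e'⟩ hpe' h2
      rw [Finset.mem_coe, Finset.mem_product, hE, Finset.mem_filter, Finset.mem_range] at hpe hpe'
      have h3 := congrArg ZMod.val h2
      simp only at h3
      rw [val_block A' Q Z hA hpe.1 hpe.2.1, val_block A' Q Z hA hpe'.1 hpe'.2.1] at h3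
      obtain ⟨rfl, rfl⟩ := block_inj Q hQ hpe.2.1 hpe'.2.1 h3
      rfl
  refine le_trans ?_ h1
  rw [Finset.sum_product_right]
  have h2 : ∀ e ∈ E, T / (B + 1) ^ l ≤
      ∑ p ∈ A', g0A A' Q η ((Q * p + e : ℕ) : ZMod (Q * (2 * Z))) *
        ∏ i, AR (Q * (B + 1)) (gA A' Q)
          (((Q * p + e : ℕ) : ZMod (Q * (2 * Z))) + (a i : ZMod (Q * (2 * Z)))) := by
    intro e he
    rw [hE, Finset.mem_filter, Finset.mem_range] at he
    have h3 : ∀ p ∈ A', (∏ i, ∑ w ∈ range B, ind A' (p + ((e + a i) / Q + 1) + w)) /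
        ((B : ℝ) + 1) ^ l ≤ g0A A' Q η ((Q * p + e : ℕ) : ZMod (Q * (2 * Z))) *
        ∏ i, AR (Q * (B + 1)) (gA A' Q)
          (((Q * p + e : ℕ) : ZMod (Q * (2 * Z))) + (a i : ZMod (Q * (2 * Z)))) := by
      intro p hp
      have hv := val_block A' Q Z hA hp he.1
      have h4 : g0A A' Q η ((Q * p + e : ℕ) : ZMod (Q * (2 * Z))) = 1 := by
        unfold g0A
        rw [hv, Nat.mul_add_mod, Nat.mod_eq_of_lt he.1, if_pos he.2, Nat.mul_add_div hQ,
          Nat.div_eq_of_lt he.1, add_zero]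
        exact if_pos hp
      rw [h4, one_mul]
      have h5 : (∏ i : Fin l, ∑ w ∈ range B, ind A' (p + ((e + a i) / Q + 1) + w)) /
          ((B : ℝ) + 1) ^ l =
          ∏ i : Fin l, (∑ w ∈ range B, ind A' (p + ((e + a i) / Q + 1) + w)) / ((B : ℝ) + 1) := by
        rw [Finset.prod_div_distrib, Finset.prod_const, Finset.card_univ, Fintype.card_fin]
      rw [h5]
      refine Finset.prod_le_prod (fun i _ => ?_) fun i _ => ?_
      · exact div_nonneg (Finset.sum_nonneg fun w _ => ind_nonneg _ _) (by positivity)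
      · have h6 := AR_gA_ge A' Q B hQ ((Q * p + e : ℕ) : ZMod (Q * (2 * Z))) (a i) (by
          rw [hv]
          have h7 := hA p hp
          have h8 : Q * (p + 1) ≤ Q * Z := Nat.mul_le_mul_left Q h7
          rw [Nat.mul_succ] at h8
          have h9 : Q * (2 * Z) = Q * Z + Q * Z := by ring
          have := ha i
          have := he.1
          omega)
        refine le_trans (le_of_eq ?_) h6
        congr 1
        refine Finset.sum_congr rfl fun w _ => ?_
        rw [hv]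
        congr 1
        have h10 : Q * p + e + a i = Q * p + (e + a i) := by ring
        rw [h10, Nat.mul_add_div hQ]
        ring
    refine le_trans ?_ (Finset.sum_le_sum h3)
    rw [← Finset.sum_div]
    refine div_le_div_of_nonneg_right ?_ (by positivity)
    refine (hT e he.1 he.2).trans (le_of_eq ?_)
    simp_rw [prod_count]
    rw [Finset.card_filter, Finset.sum_product]
    push_cast
    refine Finset.sum_congr rfl fun p _ => ?_
    rw [Finset.card_filter]
    push_cast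
    rfl
  have h3 : η * Q ≤ (E.card : ℝ) := by
    have h4 : E = range ⌈η * Q⌉₊ := by
      rw [hE]
      ext e
      rw [Finset.mem_filter, Finset.mem_range, Finset.mem_range, Nat.lt_ceil]
      constructor
      · exact fun h => h.2
      · intro h
        refine ⟨?_, h⟩
        have : (e : ℝ) < Q := by nlinarith
        exact_mod_cast this
    rw [h4, Finset.card_range]
    exact Nat.le_ceil _
  calc η * Q * T / (B + 1) ^ l = η * Q * (T / (B + 1) ^ l) := by ring
    _ ≤ E.card * (T / (B + 1) ^ l) := mul_le_mul_of_nonneg_right h3 (by positivity)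
    _ = ∑ _e ∈ E, T / ((B : ℝ) + 1) ^ l := by rw [Finset.sum_const, nsmul_eq_mul]
    _ ≤ _ := Finset.sum_le_sum h2

theorem upper_k (hA : ∀ p ∈ A', p < Z) (hQ : 0 < Q) (a : Fin l → ℕ) (ha : ∀ i, a i ≤ Q * Z)
    (hno : ∀ e < Q, (e : ℝ) < η * Q → ∀ p ∈ A', ¬ ∀ i, p + (e + a i) / Q ∈ A') :
    ∑ y : ZMod (Q * (2 * Z)), g0A A' Q η y *
      ∏ i, gA A' Q (y + (a i : ZMod (Q * (2 * Z)))) = 0 := by
  refine Finset.sum_eq_zero fun y _ => ?_
  by_contra hne
  have h1 : g0A A' Q η y ≠ 0 := left_ne_zero_of_mul hne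
  have h2 : ∏ i, gA A' Q (y + (a i : ZMod (Q * (2 * Z)))) ≠ 0 := right_ne_zero_of_mul hne
  unfold g0A at h1
  split_ifs at h1 with h3
  · have h4 : y.val / Q ∈ A' := by
      by_contra h5
      exact h1 (if_neg h5)
    have hmod : y.val % Q < Q := Nat.mod_lt _ hQ
    refine hno (y.val % Q) hmod h3 (y.val / Q) h4 fun i => ?_
    have h6 : gA A' Q (y + (a i : ZMod (Q * (2 * Z)))) ≠ 0 :=
      (Finset.prod_ne_zero_iff.mp h2) i (Finset.mem_univ i)
    have h7 : (y + (a i : ZMod (Q * (2 * Z)))).val = y.val + a i := by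
      refine val_add_nat y (a i) ?_
      have h8 := hA _ h4
      have h9 := Nat.div_add_mod y.val Q
      have h10 : Q * (y.val / Q + 1) ≤ Q * Z := Nat.mul_le_mul_left Q h8
      rw [Nat.mul_succ] at h10
      have h11 : Q * (2 * Z) = Q * Z + Q * Z := by ring
      have := ha i
      omega
    unfold gA at h6
    rw [h7] at h6
    have h12 : (y.val + a i) / Q ∈ A' := by
      by_contra h13
      exact h6 (if_neg h13)
    have h14 : y.val + a i = Q * (y.val / Q) + (y.val % Q + a i) := by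
      have h9 := Nat.div_add_mod y.val Q
      omega
    rw [h14, Nat.mul_add_div hQ] at h12
    exact h12
  · exact h1 rfl

theorem g0_sum (hA : ∀ p ∈ A', p < Z) (hQ : 0 < Q) (hη0 : 0 ≤ η) :
    ∑ y : ZMod (Q * (2 * Z)), g0A A' Q η y ≤ Z * (η * Q + 1) := by
  classical
  set E := range ⌈η * Q⌉₊ with hE
  have h1 : ∀ y : ZMod (Q * (2 * Z)), y ∉ (range Z ×ˢ E).image
      (fun pe : ℕ × ℕ => ((Q * pe.1 + pe.2 : ℕ) : ZMod (Q * (2 * Z)))) → g0A A' Q η y = 0 := by
    intro y hy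
    unfold g0A
    split_ifs with h2
    · refine if_neg fun h3 => hy ?_
      rw [Finset.mem_image]
      refine ⟨(y.val / Q, y.val % Q), ?_, ?_⟩
      · rw [Finset.mem_product, Finset.mem_range, hE, Finset.mem_range, Nat.lt_ceil]
        exact ⟨hA _ h3, h2⟩
      · rw [Nat.div_add_mod, ZMod.natCast_zmod_val]
    · rfl
  rw [← Finset.sum_subset (Finset.subset_univ _) (fun y _ hy => h1 y hy)]
  set W := (range Z ×ˢ E).image
      (fun pe : ℕ × ℕ => ((Q * pe.1 + pe.2 : ℕ) : ZMod (Q * (2 * Z)))) with hW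
  calc ∑ y ∈ W, g0A A' Q η y ≤ ∑ _y ∈ W, (1 : ℝ) :=
        Finset.sum_le_sum fun y _ => g0A_le_one _ _ _ _
    _ = (W.card : ℝ) := by
        rw [Finset.sum_const, nsmul_eq_mul, mul_one]
    _ ≤ ((range Z ×ˢ E).card : ℝ) := by exact_mod_cast Finset.card_image_le
    _ = Z * ⌈η * Q⌉₊ := by
        rw [Finset.card_product, Finset.card_range, hE, Finset.card_range]
        push_cast
        ring
    _ ≤ Z * (η * Q + 1) := by
        refine mul_le_mul_of_nonneg_left ?_ (Nat.cast_nonneg _)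
        exact (Nat.ceil_lt_add_one (by positivity)).le

end

end

end Pool.Agent.Helper57.NX
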