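import Pool.Agent.Helper61.NX.PatB
import Pool.Agent.Helper96.NX.Replace
import Pool.Agent.Helper96.NX.TreeFixed
import Pool.Agent.Helper9.NX.Frac

/-!
Project NX, module NX-33: the pattern theorem.
-/

set_option autoImplicit false

open Finset
open scoped BigOperators ComplexConjugate

namespace Pool.Agent.Helper57.NX

noncomputable section

theorem exists_pos_lb {l : ℕ} (f : Fin l → ℝ) (hf : ∀ i, 0 < f i) :
    ∃ r : ℝ, 0 < r ∧ r ≤ 1 ∧ ∀ i, r ≤ f i := by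
  induction l with
  | zero => exact ⟨1, one_pos, le_rfl, fun i => i.elim0⟩
  | succ l ih =>
    obtain ⟨r, hr, hr1, hr'⟩ := ih (fun i => f i.castSucc) fun i => hf _
    refine ⟨min r (f (Fin.last l)), lt_min hr (hf _), (min_le_left _ _).trans hr1, fun i => ?_⟩
    refine Fin.lastCases ?_ (fun j => ?_) i
    · exact min_le_right _ _
    · exact (min_le_left _ _).trans (hr' j)

theorem exists_gap {l : ℕ} (c : Fin l → ℝ) (hc : StrictMono c) :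
    ∃ g : ℝ, 0 < g ∧ ∀ i j, i < j → c i + g ≤ c j := by
  obtain ⟨r, hr, -, hr'⟩ := exists_pos_lb
    (fun q : Fin (l * l) => if (finProdFinEquiv.symm q).1 < (finProdFinEquiv.symm q).2 then
      c (finProdFinEquiv.symm q).2 - c (finProdFinEquiv.symm q).1 else 1) (by
    intro q
    split_ifs with h
    · exact sub_pos.mpr (hc h)
    · exact one_pos)
  refine ⟨r, hr, fun i j hij => ?_⟩
  have h1 := hr' (finProdFinEquiv (i, j))
  rw [Equiv.symm_apply_apply, if_pos hij] at h1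
  linarith

/-- the sequence -/
def aN (Q : ℕ) (γ : ℝ) (k : ℕ) : ℕ := ⌊(Q : ℝ) * (k : ℝ) ^ γ⌋₊

/-- the system -/
def SS {l : ℕ} (D : ℕ) (c : Fin l → ℝ) : Sys l :=
  ⟨D, 0, D ^ 2, D, D, fun i => (D : ℝ) ^ (2 : ℝ) * (D : ℝ) ^ (c i)⟩

theorem SS_a {l : ℕ} {D : ℕ} (hD : 1 ≤ D) (c : Fin l → ℝ) (i : Fin l) (k : ℕ) :
    (SS D c).a c i k = ((aN (D ^ 2) (c i) k : ℕ) : ℤ) := by
  have hD0 : (0 : ℝ) < D := by exact_mod_cast hD
  have h1 : (SS D c).P i * ((SS D c).t k) ^ (c i) = ((D ^ 2 : ℕ) : ℝ) * (k : ℝ) ^ (c i) := by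
    change ((D : ℝ) ^ (2 : ℝ) * (D : ℝ) ^ (c i)) * (((k : ℝ) + 0) / D) ^ (c i) = _
    rw [add_zero, Real.div_rpow (Nat.cast_nonneg _) hD0.le, Real.rpow_two]
    push_cast
    have h2 : (D : ℝ) ^ (c i) ≠ 0 := (Real.rpow_pos_of_pos hD0 _).ne'
    field_simp
  unfold Sys.a aN
  rw [h1]
  exact (Int.natCast_floor_eq_floor (by positivity)).symm

theorem frac_ok {Q : ℕ} (hQ : 0 < Q) {x η : ℝ} (hx : 0 ≤ x) (hf : Int.fract x < 1 - η) {e : ℕ}
    (he : (e : ℝ) < η * Q) : (e + ⌊(Q : ℝ) * x⌋₊) / Q = ⌊x⌋₊ := by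
  have hQ0 : (0 : ℝ) < Q := by exact_mod_cast hQ
  have hfl : (⌊x⌋₊ : ℝ) = x - Int.fract x := by
    have h1 : ((⌊x⌋₊ : ℤ) : ℝ) = (⌊x⌋ : ℝ) := by rw [Int.natCast_floor_eq_floor hx]
    rw [Int.fract]
    push_cast at h1
    linarith
  have h2 : Q * ⌊x⌋₊ ≤ ⌊(Q : ℝ) * x⌋₊ := by
    refine Nat.le_floor ?_
    push_cast
    exact mul_le_mul_of_nonneg_left (Nat.floor_le hx) hQ0.le
  have h3 : e + ⌊(Q : ℝ) * x⌋₊ < Q * (⌊x⌋₊ + 1) := by
    have h4 : (⌊(Q : ℝ) * x⌋₊ : ℝ) ≤ Q * x := Nat.floor_le (by positivity)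
    have h5 : ((e + ⌊(Q : ℝ) * x⌋₊ : ℕ) : ℝ) < ((Q * (⌊x⌋₊ + 1) : ℕ) : ℝ) := by
      push_cast
      rw [hfl]
      have h6 : (Q : ℝ) * Int.fract x < Q * (1 - η) := mul_lt_mul_of_pos_left hf hQ0
      nlinarith
    exact_mod_cast h5
  refine Nat.div_eq_of_lt_le ?_ ?_
  · rw [mul_comm ⌊x⌋₊ Q]
    omega
  · rw [mul_comm (⌊x⌋₊ + 1) Q]
    exact h3

theorem s_bounds {Q : ℕ} (hQ : 0 < Q) {x : ℝ} (hx : 0 ≤ x) {e : ℕ} (he : e < Q) :
    x - 1 ≤ (((e + ⌊(Q : ℝ) * x⌋₊) / Q : ℕ) : ℝ) ∧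
      (((e + ⌊(Q : ℝ) * x⌋₊) / Q : ℕ) : ℝ) ≤ x + 1 := by
  have hQ0 : (0 : ℝ) < Q := by exact_mod_cast hQ
  constructor
  · have h2 : Q * ⌊x⌋₊ ≤ ⌊(Q : ℝ) * x⌋₊ := by
      refine Nat.le_floor ?_
      push_cast
      exact mul_le_mul_of_nonneg_left (Nat.floor_le hx) hQ0.le
    have h3 : ⌊x⌋₊ ≤ (e + ⌊(Q : ℝ) * x⌋₊) / Q := by
      rw [Nat.le_div_iff_mul_le hQ, mul_comm]
      omega
    have h4 := Nat.lt_floor_add_one x
    have h5 : (⌊x⌋₊ : ℝ) ≤ (((e + ⌊(Q : ℝ) * x⌋₊) / Q : ℕ) : ℝ) := by exact_mod_cast h3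
    linarith
  · refine (Nat.cast_div_le).trans ?_
    rw [div_le_iff₀ hQ0]
    push_cast
    have h4 : (⌊(Q : ℝ) * x⌋₊ : ℝ) ≤ Q * x := Nat.floor_le (by positivity)
    have h5 : (e : ℝ) ≤ Q := by exact_mod_cast he.le
    nlinarith

theorem nx_pattern (hES : ES0) (l : ℕ) (c : Fin l → ℝ) (hc : StrictMono c) (hc0 : ∀ i, 0 < c i)
    (hcn : ∀ i (n : ℕ), c i ≠ n) (hU : ∀ ε : ℝ, 0 < ε → UP l c ε) (δ : ℝ) (hδ : 0 < δ) (N0 : ℕ) :
    ∃ z0 : ℕ, ∀ z : ℕ, z0 ≤ z → ∀ A : Finset ℕ, (∀ p ∈ A, p.Prime ∧ p < 2 ^ z) →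
    δ * ((2 : ℝ) ^ z / Real.log ((2 : ℝ) ^ z)) ≤ A.card →
    ∃ m ∈ A, ∃ n : ℕ, N0 ≤ n ∧ ∀ i, m + ⌊(n : ℝ) ^ c i⌋₊ ∈ A := by
  -- bounds for the exponents
  obtain ⟨γ, hγ, hγ1, hγc⟩ := exists_pos_lb c hc0
  obtain ⟨g, hg, hgap⟩ := exists_gap c hc
  obtain ⟨Γ, hΓ0, hΓ⟩ : ∃ Γ : ℝ, 0 ≤ Γ ∧ ∀ i, c i ≤ Γ :=
    ⟨∑ i, c i, Finset.sum_nonneg fun i _ => (hc0 i).le,
      fun i => Finset.single_le_sum (f := c) (fun j _ => (hc0 j).le) (Finset.mem_univ i)⟩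
  -- the analytic inputs
  obtain ⟨x0, hx0, σ1, hσ1, D1, H1⟩ := form_replace l c hU (γ / 4) (by linarith)
  choose Ci hCi σi hσi Di H2 using fun i => frac_count hES (c i) (hc0 i) (hcn i)
  obtain ⟨σ2, hσ2, hσ2', hσ2i⟩ := exists_pos_lb σi hσi
  obtain ⟨D2, hD2⟩ : ∃ D2 : ℝ, ∀ i, Di i ≤ D2 :=
    ⟨∑ i, |Di i|, fun i => (le_abs_self _).trans
      (Finset.single_le_sum (f := fun i => |Di i|) (fun j _ => abs_nonneg _) (Finset.mem_univ i))⟩
  set Cs := ∑ i, Ci i with hCs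
  have hCs0 : 0 ≤ Cs := Finset.sum_nonneg fun i _ => (hCi i).le
  set σ := min σ1 σ2 with hσdef
  have hσ : 0 < σ := lt_min hσ1 hσ2
  have hσ1' : σ ≤ σ1 := min_le_left _ _
  have hσ2'' : σ ≤ σ2 := min_le_right _ _
  have hσle : σ ≤ 1 := hσ2''.trans hσ2'
  -- the parameters
  set a := ⌈4 / γ⌉₊ + 1 with ha
  have haγ : 4 ≤ (a : ℝ) * γ := by
    have h1 : 4 / γ ≤ ⌈4 / γ⌉₊ := Nat.le_ceil _
    have h2 : 4 / γ ≤ (a : ℝ) := by rw [ha]; push_cast; linarith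
    rwa [div_le_iff₀ hγ] at h2
  have ha1 : 1 ≤ a := by omega
  set cc := ⌈((a : ℝ) + 1) * Γ⌉₊ + 3 with hcc
  set M := ⌈(2 * l + 3 : ℝ) / σ⌉₊ + 1 with hM
  have hMσ : (2 * l + 3 : ℝ) ≤ M * σ := by
    have h1 : (2 * l + 3 : ℝ) / σ ≤ ⌈(2 * l + 3 : ℝ) / σ⌉₊ := Nat.le_ceil _
    have h2 : (2 * l + 3 : ℝ) / σ ≤ (M : ℝ) := by rw [hM]; push_cast; linarith
    rwa [div_le_iff₀ hσ] at h2
  have hM1 : 1 ≤ M := by omega
  obtain ⟨τ, hτ, z1, H3⟩ := tree_fixed δ hδ l cc M (by omega)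
  set τ' := τ / 2 ^ (l + 1) with hτ'
  have hτ'0 : 0 < τ' := by positivity
  set c1 := min 1 (τ' / (4 * Cs + 4)) with hc1
  have hc10 : 0 < c1 := lt_min one_pos (by positivity)
  have hc11 : c1 ≤ 1 := min_le_left _ _
  have hc1τ : 2 * Cs * c1 ≤ τ' / 2 := by
    have h1 : c1 ≤ τ' / (4 * Cs + 4) := min_le_right _ _
    rw [le_div_iff₀ (by positivity)] at h1
    nlinarith
  refine ⟨max z1 (max 2 (max N0 (max ⌈D1⌉₊ (max ⌈D2⌉₊ (max ⌈(2 : ℝ) ^ (1 / g)⌉₊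
    (max ⌈1 / c1⌉₊ (⌈2 / (c1 * τ')⌉₊ + 1))))))), ?_⟩
  intro z hz A hA hcard
  simp only [max_le_iff] at hz
  obtain ⟨hz1, hz2, hzN, hzD1, hzD2, hzg, hzc, hzt⟩ := hz
  have hzr2 : (2 : ℝ) ≤ z := by exact_mod_cast hz2
  have hz0 : (0 : ℝ) < z := by linarith
  by_contra hno
  push Not at hno
  obtain ⟨β, hβ1, hβ2, H4⟩ := H3 z hz1 A hA hcard
  -- sizes
  set B := 2 ^ β with hB
  set D := B ^ a with hD
  have hzM : z ≤ z ^ M := Nat.le_self_pow (by omega) z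
  have hzB : z ≤ B := hzM.trans hβ1
  have hB2 : 2 ≤ B := hz2.trans hzB
  have hBD : B ≤ D := Nat.le_self_pow (by omega) B
  have hzD : z ≤ D := hzB.trans hBD
  have hD2' : 2 ≤ D := hB2.trans hBD
  have hD1n : 1 ≤ D := by omega
  have hDr2 : (2 : ℝ) ≤ D := by exact_mod_cast hD2'
  have hDr1 : (1 : ℝ) ≤ D := by linarith
  have hDr0 : (0 : ℝ) < D := by linarith
  have hBr2 : (2 : ℝ) ≤ B := by exact_mod_cast hB2
  have hBr1 : (1 : ℝ) ≤ B := by linarith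
  have hBr0 : (0 : ℝ) < B := by linarith
  have hDB : (D : ℝ) = (B : ℝ) ^ a := by rw [hD]; push_cast; rfl
  have hDrp : ∀ t : ℝ, (D : ℝ) ^ t = (B : ℝ) ^ (a * t) := by
    intro t
    rw [hDB, ← Real.rpow_natCast, ← Real.rpow_mul hBr0.le]
  -- `D^γ ≥ B^4`, `D^(γ - γ/4) ≥ B^3`
  have hDγ : ∀ i, (B : ℝ) ^ 3 ≤ (D : ℝ) ^ (c i - γ / 4) := by
    intro i
    rw [hDrp, ← Real.rpow_natCast]
    refine Real.rpow_le_rpow_of_exponent_le hBr1 ?_
    have h1 : (a : ℝ) * (γ * (3 / 4)) ≤ a * (c i - γ / 4) :=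
      mul_le_mul_of_nonneg_left (by linarith [hγc i]) (Nat.cast_nonneg _)
    push_cast
    linarith
  have hB3 : (B : ℝ) ^ 2 + 3 ≤ (B : ℝ) ^ 3 := by nlinarith [mul_self_nonneg ((B : ℝ) - 2)]
  have hkc : ∀ i, ∀ k : ℕ, D ≤ k → (B : ℝ) ^ 2 + 3 ≤ (k : ℝ) ^ (c i) := by
    intro i k hk
    have hk' : (D : ℝ) ≤ k := by exact_mod_cast hk
    calc (B : ℝ) ^ 2 + 3 ≤ (B : ℝ) ^ 3 := hB3
      _ ≤ (D : ℝ) ^ (c i - γ / 4) := hDγ i
      _ ≤ (D : ℝ) ^ (c i) := Real.rpow_le_rpow_of_exponent_le hDr1 (by linarith)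
      _ ≤ (k : ℝ) ^ (c i) := Real.rpow_le_rpow hDr0.le hk' (hc0 i).le
  -- upper bound
  have hup : ∀ i, ∀ k : ℕ, D ≤ k → k < D + D →
      (k : ℝ) ^ (c i) + (B : ℝ) ^ 2 + 3 ≤ ((2 ^ (cc * β) : ℕ) : ℝ) := by
    intro i k hk hk'
    have h1 : (k : ℝ) ≤ 2 * D := by
      have : (k : ℝ) < D + D := by exact_mod_cast hk'
      linarith
    have h2 : (2 : ℝ) * D ≤ (B : ℝ) ^ ((a : ℝ) + 1) := by
      calc (2 : ℝ) * D ≤ B * (B : ℝ) ^ a := by rw [← hDB]; exact mul_le_mul_of_nonneg_right hBr2 hDr0.le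
        _ = (B : ℝ) ^ ((a : ℝ) + 1) := by
          rw [Real.rpow_add hBr0, Real.rpow_natCast, Real.rpow_one]
          ring
    have h3 : (k : ℝ) ^ (c i) ≤ (B : ℝ) ^ ⌈((a : ℝ) + 1) * Γ⌉₊ := by
      calc (k : ℝ) ^ (c i) ≤ ((B : ℝ) ^ ((a : ℝ) + 1)) ^ (c i) :=
            Real.rpow_le_rpow (Nat.cast_nonneg _) (h1.trans h2) (hc0 i).le
        _ ≤ ((B : ℝ) ^ ((a : ℝ) + 1)) ^ Γ :=
            Real.rpow_le_rpow_of_exponent_le (Real.one_le_rpow hBr1 (by positivity)) (hΓ i)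
        _ = (B : ℝ) ^ (((a : ℝ) + 1) * Γ) := by rw [← Real.rpow_mul hBr0.le]
        _ ≤ (B : ℝ) ^ ((⌈((a : ℝ) + 1) * Γ⌉₊ : ℕ) : ℝ) :=
            Real.rpow_le_rpow_of_exponent_le hBr1 (Nat.le_ceil _)
        _ = _ := Real.rpow_natCast _ _
    have h4 : (1 : ℝ) ≤ (B : ℝ) ^ ⌈((a : ℝ) + 1) * Γ⌉₊ := one_le_pow₀ hBr1
    have h5 : ((2 ^ (cc * β) : ℕ) : ℝ) = (B : ℝ) ^ ⌈((a : ℝ) + 1) * Γ⌉₊ * (B : ℝ) ^ 3 := by
      rw [← pow_add, ← hcc, hB]
      push_cast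
      rw [← pow_mul, mul_comm β cc]
    rw [h5]
    have h6 : (B : ℝ) ^ 2 + 4 ≤ (B : ℝ) ^ 3 := by nlinarith [mul_self_nonneg ((B : ℝ) - 2)]
    calc (k : ℝ) ^ (c i) + (B : ℝ) ^ 2 + 3
        ≤ (B : ℝ) ^ ⌈((a : ℝ) + 1) * Γ⌉₊ + (B : ℝ) ^ 2 + 3 := by linarith
      _ ≤ (B : ℝ) ^ ⌈((a : ℝ) + 1) * Γ⌉₊ * ((B : ℝ) ^ 2 + 4) := by nlinarith
      _ ≤ _ := mul_le_mul_of_nonneg_left h6 (by positivity)
  have hccz : 2 ^ (cc * β) ≤ 2 ^ z := by
    refine Nat.pow_le_pow_right (by norm_num) (le_trans ?_ hβ2)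
    exact Nat.mul_le_mul_right β (Nat.le_succ cc)
  have hcczr : ((2 ^ (cc * β) : ℕ) : ℝ) ≤ ((2 ^ z : ℕ) : ℝ) := by exact_mod_cast hccz
  set Z := 2 ^ z with hZ
  set Q := D ^ 2 with hQ
  have hQ0 : 0 < Q := by positivity
  have hQr0 : (0 : ℝ) < Q := by exact_mod_cast hQ0
  have hQr : (Q : ℝ) = (D : ℝ) ^ 2 := by rw [hQ]; push_cast; rfl
  have hZ0 : 0 < Z := by positivity
  have hZr0 : (0 : ℝ) < Z := by exact_mod_cast hZ0
  have : NeZero (Q * (2 * Z)) := ⟨by positivity⟩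
  set S := SS D c with hS
  have hSI : S.I = Ico D (D + D) := rfl
  have hSD : S.D = (D : ℝ) := rfl
  have hSQ : S.Q = Q := rfl
  have hSP : ∀ i, S.P i = (D : ℝ) ^ (2 : ℝ) * (D : ℝ) ^ (c i) := fun i => rfl
  have hQ2 : (D : ℝ) ^ (2 : ℝ) = Q := by rw [Real.rpow_two, hQr]
  have hDc : ∀ i, (D : ℝ) ^ (c i) ≤ Z := by
    intro i
    have h1 := hup i D le_rfl (by omega)
    have h2 : (0 : ℝ) ≤ (B : ℝ) ^ 2 := by positivity
    linarith
  have hgood : Good S c (Q * (2 * Z)) x0 := by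
    have hDx : (1 : ℝ) ≤ (D : ℝ) ^ x0 := Real.one_le_rpow hDr1 hx0.le
    refine ⟨le_rfl, zero_le_one, ?_, ?_, ?_, ?_, ?_, ?_, ?_, ?_, ?_⟩
    · rw [hSD, hSQ, hQ2]
    · rw [hSD, hSQ, ← hQ2]
      exact Real.rpow_le_rpow_of_exponent_le hDr1 (by norm_num)
    · intro i
      rw [hSP, hSD, hSQ, hQ2]
      exact mul_le_mul_of_nonneg_left
        (Real.rpow_le_rpow_of_exponent_le hDr1 (by linarith)) hQr0.le
    · intro i
      rw [hSP, hSD, hSQ, hQ2]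
      exact mul_le_mul_of_nonneg_left
        (Real.rpow_le_rpow_of_exponent_le hDr1 (by linarith)) hQr0.le
    · intro i
      rw [hSP, hSD, hQ2]
      push_cast
      calc (Q : ℝ) * (D : ℝ) ^ (c i) ≤ Q * (2 * Z) :=
            mul_le_mul_of_nonneg_left (by linarith [hDc i]) hQr0.le
        _ = Q * (2 * Z) * 1 := (mul_one _).symm
        _ ≤ _ := mul_le_mul_of_nonneg_left hDx (by positivity)
    · rw [hSQ]
      have h1 : Q * 1 ≤ Q * (2 * Z) := Nat.mul_le_mul_left Q (by omega)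
      rw [mul_one] at h1
      exact_mod_cast h1
    · exact le_rfl
    · change (D : ℝ) + D ≤ 2 * D
      linarith
    · change (D : ℝ) ^ (1 - x0) ≤ D
      calc (D : ℝ) ^ (1 - x0) ≤ (D : ℝ) ^ (1 : ℝ) :=
            Real.rpow_le_rpow_of_exponent_le hDr1 (by linarith)
        _ = D := Real.rpow_one _
  -- smallness of `D^(-σ)`
  have hDσ : ∀ σ', σ ≤ σ' → (D : ℝ) ^ (-σ') ≤ (z : ℝ)⁻¹ ^ (2 * l + 3) := by
    intro σ' hσ'
    have h1 : (z : ℝ) ^ (2 * l + 3 : ℕ) ≤ (D : ℝ) ^ σ := by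
      have h2 : (z : ℝ) ^ M ≤ D := by
        have : z ^ M ≤ D := hβ1.trans hBD
        exact_mod_cast this
      calc (z : ℝ) ^ (2 * l + 3 : ℕ) = (z : ℝ) ^ ((2 * l + 3 : ℕ) : ℝ) := (Real.rpow_natCast _ _).symm
        _ ≤ (z : ℝ) ^ ((M : ℝ) * σ) := by
            refine Real.rpow_le_rpow_of_exponent_le (by linarith) ?_
            push_cast
            linarith
        _ = ((z : ℝ) ^ M) ^ σ := by rw [Real.rpow_mul hz0.le, Real.rpow_natCast]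
        _ ≤ (D : ℝ) ^ σ := Real.rpow_le_rpow (by positivity) h2 hσ.le
    calc (D : ℝ) ^ (-σ') ≤ (D : ℝ) ^ (-σ) := Real.rpow_le_rpow_of_exponent_le hDr1 (by linarith)
      _ = ((D : ℝ) ^ σ)⁻¹ := Real.rpow_neg hDr0.le _
      _ ≤ ((z : ℝ) ^ (2 * l + 3 : ℕ))⁻¹ := inv_anti₀ (by positivity) h1
      _ = _ := (inv_pow _ _).symm
  set ζ := (z : ℝ)⁻¹ with hζ
  have hζ0 : 0 < ζ := by positivity
  have hζ1 : ζ ≤ 1 := by
    rw [hζ]
    exact inv_le_one_of_one_le₀ (by linarith)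
  have hζc : ζ ≤ c1 := by
    have h1 : 1 / c1 ≤ (z : ℝ) := (Nat.le_ceil _).trans (by exact_mod_cast hzc)
    rw [hζ, inv_le_comm₀ hz0 hc10, ← one_div]
    exact h1
  set η := c1 * ζ ^ (l + 1) with hη
  have hη0 : 0 < η := by positivity
  have hη1 : η ≤ 1 := by
    have : ζ ^ (l + 1) ≤ 1 := pow_le_one₀ hζ0.le hζ1
    calc η ≤ 1 * 1 := mul_le_mul hc11 this (by positivity) zero_le_one
      _ = 1 := one_mul 1
  have hζη : ζ ^ (2 * l + 3) ≤ η := by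
    calc ζ ^ (2 * l + 3) ≤ ζ ^ (l + 2) := pow_le_pow_of_le_one hζ0.le hζ1 (by omega)
      _ = ζ * ζ ^ (l + 1) := by ring
      _ ≤ c1 * ζ ^ (l + 1) := mul_le_mul_of_nonneg_right hζc (by positivity)
  have hQη : 1 ≤ η * Q := by
    have h1 : (D : ℝ) ^ (-σ) ≤ η := (hDσ σ le_rfl).trans hζη
    have h2 : (1 : ℝ) ≤ (D : ℝ) ^ (-σ) * (D : ℝ) ^ (2 : ℝ) := by
      rw [← Real.rpow_add hDr0]
      exact Real.one_le_rpow hDr1 (by linarith)
    rw [hQ2] at h2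
    exact h2.trans (mul_le_mul_of_nonneg_right h1 hQr0.le)
  -- the values of the sequences
  have haS : ∀ i k, ((S.a c i k : ℤ) : ZMod (Q * (2 * Z))) = ((aN Q (c i) k : ℕ) : ZMod (Q * (2 * Z))) := by
    intro i k
    rw [hS, SS_a hD1n c i k]
    push_cast
    rfl
  have haN : ∀ i, ∀ k ∈ S.I, aN Q (c i) k + Q * (B ^ 2 + 1) ≤ Q * Z := by
    intro i k hk
    rw [hSI, Finset.mem_Ico] at hk
    have h1 := (hup i k hk.1 hk.2).trans hcczr
    have h2 : ((aN Q (c i) k : ℕ) : ℝ) ≤ Q * (k : ℝ) ^ (c i) := Nat.floor_le (by positivity)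
    have h3 : ((aN Q (c i) k + Q * (B ^ 2 + 1) : ℕ) : ℝ) ≤ ((Q * Z : ℕ) : ℝ) := by
      push_cast
      calc ((aN Q (c i) k : ℕ) : ℝ) + Q * ((B : ℝ) ^ 2 + 1)
          ≤ Q * (k : ℝ) ^ (c i) + Q * ((B : ℝ) ^ 2 + 1) := by linarith
        _ = Q * ((k : ℝ) ^ (c i) + (B : ℝ) ^ 2 + 1) := by ring
        _ ≤ Q * Z := mul_le_mul_of_nonneg_left (by linarith) hQr0.le
    exact_mod_cast h3
  have hAZ : ∀ p ∈ A, p < Z := fun p hp => (hA p hp).2
  -- lower bound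
  set L : ℕ := Q * (B ^ 2 + 1) with hL
  set T : ℝ := τ * ((2 : ℝ) ^ z / Real.log ((2 : ℝ) ^ z) ^ (l + 1)) * ((B : ℝ) ^ 2) ^ l with hT
  have hlog : Real.log ((2 : ℝ) ^ z) = z * Real.log 2 := Real.log_pow _ _
  have hlog2 : 0 < Real.log 2 := Real.log_pos (by norm_num)
  have hlogz : 0 < Real.log ((2 : ℝ) ^ z) := by rw [hlog]; positivity
  have hlogle : Real.log ((2 : ℝ) ^ z) ≤ z := by
    rw [hlog]
    have : Real.log 2 ≤ 1 := by linarith [Real.log_two_lt_d9]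
    nlinarith
  have hT0 : 0 ≤ T := by positivity
  have hlow_k : ∀ k ∈ S.I, τ' * η * ζ ^ (l + 1) ≤
      𝔼 y : ZMod (Q * (2 * Z)), g0A A Q η y *
        ∏ i, AR L (gA A Q) (y + (S.a c i k : ZMod (Q * (2 * Z)))) := by
    intro k hk
    have hk' := hk
    rw [hSI, Finset.mem_Ico] at hk'
    have h1 := lower_k A Q Z (B ^ 2) η hAZ hQ0 (fun i => aN Q (c i) k) (fun i => haN i k hk) T
      hη0.le hη1 hT0 (by
        intro e he _
        have h2 : ∀ i, (k : ℝ) ^ (c i) ≤ (((e + aN Q (c i) k) / Q + 1 : ℕ) : ℝ) ∧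
            (((e + aN Q (c i) k) / Q + 1 : ℕ) : ℝ) ≤ (k : ℝ) ^ (c i) + 2 := by
          intro i
          have h3 := s_bounds hQ0 (x := (k : ℝ) ^ (c i)) (by positivity) he
          have h4 : aN Q (c i) k = ⌊(Q : ℝ) * (k : ℝ) ^ (c i)⌋₊ := rfl
          rw [h4]
          push_cast
          push_cast at h3
          constructor <;> linarith [h3.1, h3.2]
        have h5 := H4 (fun i => (e + aN Q (c i) k) / Q + 1) (fun i => Nat.le_add_left 1 _) (by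
          intro i j hij
          have h6 : (k : ℝ) ^ (c i) * 2 ≤ (k : ℝ) ^ (c j) := by
            have hkD : (D : ℝ) ≤ k := by exact_mod_cast hk'.1
            have hk0 : (0 : ℝ) < k := by linarith
            have hk1 : (1 : ℝ) ≤ k := by linarith
            have h7 : (2 : ℝ) ≤ (k : ℝ) ^ g := by
              have h8 : (2 : ℝ) ^ (1 / g) ≤ k := by
                calc (2 : ℝ) ^ (1 / g) ≤ ⌈(2 : ℝ) ^ (1 / g)⌉₊ := Nat.le_ceil _
                  _ ≤ (z : ℝ) := by exact_mod_cast hzg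
                  _ ≤ D := by exact_mod_cast hzD
                  _ ≤ k := hkD
              calc (2 : ℝ) = ((2 : ℝ) ^ (1 / g)) ^ g := by
                    rw [← Real.rpow_mul (by norm_num)]
                    have : 1 / g * g = 1 := by field_simp
                    rw [this, Real.rpow_one]
                _ ≤ (k : ℝ) ^ g := Real.rpow_le_rpow (by positivity) h8 hg.le
            calc (k : ℝ) ^ (c i) * 2 ≤ (k : ℝ) ^ (c i) * (k : ℝ) ^ g :=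
                  mul_le_mul_of_nonneg_left h7 (by positivity)
              _ = (k : ℝ) ^ (c i + g) := (Real.rpow_add hk0 _ _).symm
              _ ≤ (k : ℝ) ^ (c j) := Real.rpow_le_rpow_of_exponent_le hk1 (hgap i j hij)
          have h9 := hkc i k hk'.1
          have h10 : ((((e + aN Q (c i) k) / Q + 1) + (2 ^ β) ^ 2 : ℕ) : ℝ) <
              (((e + aN Q (c j) k) / Q + 1 : ℕ) : ℝ) := by
            have h11 := (h2 i).2
            have h12 := (h2 j).1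
            rw [Nat.cast_add, Nat.cast_pow]
            change _ + (B : ℝ) ^ 2 < _
            linarith
          exact_mod_cast h10) (by
          intro i
          have h11 := (h2 i).2
          have h12 := hup i k hk'.1 hk'.2
          have h10 : ((((e + aN Q (c i) k) / Q + 1) + (2 ^ β) ^ 2 : ℕ) : ℝ) ≤
              ((2 ^ (cc * β) : ℕ) : ℝ) := by
            rw [Nat.cast_add, Nat.cast_pow]
            change _ + (B : ℝ) ^ 2 ≤ _
            linarith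
          exact_mod_cast h10)
        have h13 : (((2 : ℝ) ^ β) ^ 2) ^ l = ((B : ℝ) ^ 2) ^ l := by
          rw [hB]
          push_cast
          rfl
        rw [h13] at h5
        exact h5)
    have h2 : 𝔼 y : ZMod (Q * (2 * Z)), g0A A Q η y *
        ∏ i, AR L (gA A Q) (y + (S.a c i k : ZMod (Q * (2 * Z)))) =
        (∑ y : ZMod (Q * (2 * Z)), g0A A Q η y *
        ∏ i, AR L (gA A Q) (y + (aN Q (c i) k : ZMod (Q * (2 * Z))))) / (Q * (2 * Z)) := by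
      rw [expect_zmod_real]
      push_cast
      simp_rw [haS]
    rw [h2, le_div_iff₀ (by positivity)]
    refine le_trans ?_ h1
    rw [le_div_iff₀ (by positivity)]
    -- numerics
    have h3 : ((B : ℝ) ^ 2 + 1) ^ l ≤ 2 ^ l * ((B : ℝ) ^ 2) ^ l := by
      rw [← mul_pow]
      refine pow_le_pow_left₀ (by positivity) ?_ l
      nlinarith
    have h4 : ζ ^ (l + 1) * Real.log ((2 : ℝ) ^ z) ^ (l + 1) ≤ 1 := by
      rw [← mul_pow]
      refine pow_le_one₀ (by positivity) ?_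
      rw [hζ, inv_mul_le_iff₀ hz0, mul_one]
      exact hlogle
    have hZr : (Z : ℝ) = (2 : ℝ) ^ z := by rw [hZ]; push_cast; rfl
    have h5 : (1 : ℝ) * ζ ^ (l + 1) ≤ 1 / Real.log ((2 : ℝ) ^ z) ^ (l + 1) := by
      rw [one_mul, le_div_iff₀ (by positivity)]
      exact h4
    have h6 : ((B ^ 2 : ℕ) : ℝ) = (B : ℝ) ^ 2 := by push_cast; rfl
    rw [h6]
    calc τ' * η * ζ ^ (l + 1) * (Q * (2 * Z)) * ((B : ℝ) ^ 2 + 1) ^ l
        ≤ τ' * η * ζ ^ (l + 1) * (Q * (2 * Z)) * (2 ^ l * ((B : ℝ) ^ 2) ^ l) :=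
          mul_le_mul_of_nonneg_left h3 (by positivity)
      _ = η * Q * (τ * ((2 : ℝ) ^ z * (1 * ζ ^ (l + 1))) * ((B : ℝ) ^ 2) ^ l) := by
          rw [hτ', hZr]
          field_simp
          ring
      _ ≤ η * Q * (τ * ((2 : ℝ) ^ z * (1 / Real.log ((2 : ℝ) ^ z) ^ (l + 1))) *
          ((B : ℝ) ^ 2) ^ l) := by
          gcongr
      _ = η * Q * T := by
          rw [hT]
          ring
  have hIne : S.I.Nonempty := by
    rw [hSI, Finset.nonempty_Ico]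
    omega
  have hlow : τ' * η * ζ ^ (l + 1) ≤ formR (N := Q * (2 * Z)) S c (g0A A Q η) (fun _ => AR L (gA A Q)) := by
    rw [← Finset.expect_const hIne (τ' * η * ζ ^ (l + 1))]
    exact Finset.expect_le_expect fun k hk => hlow_k k hk
  -- upper bound
  set bad : Finset ℕ := univ.biUnion fun i : Fin l =>
    (Ico D (D + D)).filter fun k : ℕ => 1 - η ≤ Int.fract ((k : ℝ) ^ (c i)) with hbad
  have hbadcard : (bad.card : ℝ) ≤ 2 * Cs * η * D := by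
    have h1 : (bad.card : ℝ) ≤ ∑ i, (#((Ico D (D + D)).filter fun k : ℕ =>
        1 - η ≤ Int.fract ((k : ℝ) ^ (c i))) : ℝ) := by
      exact_mod_cast Finset.card_biUnion_le
    refine h1.trans ?_
    have h2 : ∀ i, (#((Ico D (D + D)).filter fun k : ℕ =>
        1 - η ≤ Int.fract ((k : ℝ) ^ (c i))) : ℝ) ≤ Ci i * (2 * η) * D := by
      intro i
      have h3 := H2 i D (by
        calc Di i ≤ D2 := hD2 i
          _ ≤ ⌈D2⌉₊ := Nat.le_ceil _
          _ ≤ (z : ℝ) := by exact_mod_cast hzD2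
          _ ≤ D := by exact_mod_cast hzD) η hη0 hη1 D D le_rfl (by linarith) (by linarith)
      refine h3.trans ?_
      have h4 := (hDσ (σi i) (hσ2''.trans (hσ2i i))).trans hζη
      have h5 := hCi i
      gcongr
      linarith
    calc ∑ i, (#((Ico D (D + D)).filter fun k : ℕ =>
        1 - η ≤ Int.fract ((k : ℝ) ^ (c i))) : ℝ) ≤ ∑ i, Ci i * (2 * η) * D :=
          Finset.sum_le_sum fun i _ => h2 i
      _ = 2 * Cs * η * D := by
          rw [← Finset.sum_mul, ← Finset.sum_mul]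
          ring
  have hup_k : ∀ k ∈ S.I, 𝔼 y : ZMod (Q * (2 * Z)), g0A A Q η y *
        ∏ i : Fin l, gA A Q (y + (S.a c i k : ZMod (Q * (2 * Z)))) ≤
        if k ∈ bad then η else 0 := by
    intro k hk
    rw [expect_zmod_real]
    simp_rw [haS]
    rw [div_le_iff₀ (by exact_mod_cast NeZero.pos (Q * (2 * Z)))]
    split_ifs with hkb
    · have h1 : ∑ y : ZMod (Q * (2 * Z)), g0A A Q η y *
          ∏ i : Fin l, gA A Q (y + (aN Q (c i) k : ZMod (Q * (2 * Z)))) ≤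
          ∑ y : ZMod (Q * (2 * Z)), g0A A Q η y := by
        refine Finset.sum_le_sum fun y _ => ?_
        refine mul_le_of_le_one_right (g0A_nonneg _ _ _ _) ?_
        exact Finset.prod_le_one (fun i _ => gA_nonneg _ _ _) fun i _ => gA_le_one _ _ _
      refine h1.trans ((g0_sum A Q Z η hAZ hQ0 hη0.le).trans ?_)
      push_cast
      calc (Z : ℝ) * (η * Q + 1) ≤ Z * (η * Q + η * Q) :=
            mul_le_mul_of_nonneg_left (by linarith) hZr0.le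
        _ = _ := by ring
    · have h1 := upper_k A Q Z η hAZ hQ0 (fun i : Fin l => aN Q (c i) k)
        (fun i => le_trans (Nat.le_add_right _ _) (haN i k hk)) (by
          intro e _ he' p hp hall
          rw [hSI] at hk
          have hk' := Finset.mem_Ico.mp hk
          obtain ⟨i, hi⟩ := hno p hp k (by omega)
          apply hi
          have h2 : Int.fract ((k : ℝ) ^ (c i)) < 1 - η := by
            by_contra h3
            push Not at h3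
            apply hkb
            rw [hbad, Finset.mem_biUnion]
            exact ⟨i, Finset.mem_univ i, Finset.mem_filter.mpr ⟨hk, h3⟩⟩
          have h4 := frac_ok hQ0 (x := (k : ℝ) ^ (c i)) (by positivity) h2 he'
          rw [← h4]
          exact hall i)
      rw [h1, zero_mul]
  have hupform : formR (N := Q * (2 * Z)) S c (g0A A Q η) (fun _ => gA A Q) ≤ 2 * Cs * η * η := by
    have h1 : formR (N := Q * (2 * Z)) S c (g0A A Q η) (fun _ => gA A Q) ≤ 𝔼 k ∈ S.I, if k ∈ bad then η else 0 :=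
      Finset.expect_le_expect fun k hk => hup_k k hk
    refine h1.trans ?_
    rw [Finset.expect_eq_sum_div_card, hSI, Nat.card_Ico, Nat.add_sub_cancel,
      div_le_iff₀ hDr0, ← Finset.sum_filter, Finset.sum_const, nsmul_eq_mul]
    have h2 : (((Ico D (D + D)).filter fun k => k ∈ bad).card : ℝ) ≤ bad.card := by
      have : (Ico D (D + D)).filter (fun k => k ∈ bad) ⊆ bad := fun k hk =>
        (Finset.mem_filter.mp hk).2
      exact_mod_cast Finset.card_le_card this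
    calc (((Ico D (D + D)).filter fun k => k ∈ bad).card : ℝ) * η ≤ (2 * Cs * η * D) * η :=
          mul_le_mul_of_nonneg_right (h2.trans hbadcard) hη0.le
      _ = _ := by ring
  -- comparison
  have hrep := H1 S (Q * (2 * Z)) (by
      rw [hSD]
      calc D1 ≤ ⌈D1⌉₊ := Nat.le_ceil _
        _ ≤ (z : ℝ) := by exact_mod_cast hzD1
        _ ≤ D := by exact_mod_cast hzD) hgood (fun y : ZMod (Q * (2 * Z)) => (g0A A Q η y : ℂ))
    (fun (_ : Fin l) (y : ZMod (Q * (2 * Z))) => (gA A Q y : ℂ)) (g0A_adm A hQ0 (Dvd.intro _ rfl) η)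
    (fun _ => gA_adm A hQ0 (Dvd.intro _ rfl)) (fun _ => L) (by
      intro i
      refine ⟨Nat.mul_pos hQ0 (by positivity), ?_⟩
      rw [hSP, hSD, hQ2, hL, mul_assoc, ← Real.rpow_add hDr0]
      push_cast
      refine mul_le_mul_of_nonneg_left ?_ hQr0.le
      have h1 := hDγ i
      rw [sub_eq_add_neg] at h1
      linarith)
  have hAA : (fun (_ : Fin l) => NX.A L (fun y : ZMod (Q * (2 * Z)) => (gA A Q y : ℂ))) =
      fun (_ : Fin l) (x : ZMod (Q * (2 * Z))) => ((AR L (gA A Q) x : ℝ) : ℂ) := by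
    funext _ x
    exact A_ofReal L (gA A Q) x
  rw [hAA, form_ofReal, form_ofReal, ← Complex.ofReal_sub, Complex.norm_real, Real.norm_eq_abs]
    at hrep
  have h1 := (abs_sub_le_iff.mp hrep).2
  have h2 : τ' * η * ζ ^ (l + 1) ≤ 2 * Cs * η * η + ζ ^ (2 * l + 3) := by
    have h3 := hDσ σ1 hσ1'
    rw [hSD] at h1
    linarith
  have h3 : ζ ^ (2 * l + 3) < c1 * τ' / 2 * ζ ^ (2 * l + 2) := by
    have h4 : ζ < c1 * τ' / 2 := by
      have h5 : 2 / (c1 * τ') < z := by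
        have h6 : 2 / (c1 * τ') ≤ ⌈2 / (c1 * τ')⌉₊ := Nat.le_ceil _
        have h7 : ((⌈2 / (c1 * τ')⌉₊ + 1 : ℕ) : ℝ) ≤ z := by exact_mod_cast hzt
        push_cast at h7
        linarith
      rw [div_lt_iff₀ (by positivity)] at h5
      rw [hζ, inv_lt_iff_one_lt_mul₀ hz0]
      linarith
    calc ζ ^ (2 * l + 3) = ζ * ζ ^ (2 * l + 2) := by ring
      _ < _ := mul_lt_mul_of_pos_right h4 (by positivity)
  have h4 : τ' * η * ζ ^ (l + 1) = c1 * τ' * ζ ^ (2 * l + 2) := by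
    rw [hη]; ring
  have h5 : 2 * Cs * η * η = (2 * Cs * c1) * c1 * ζ ^ (2 * l + 2) := by
    rw [hη]; ring
  have h6 : (2 * Cs * c1) * c1 * ζ ^ (2 * l + 2) ≤ (τ' / 2) * c1 * ζ ^ (2 * l + 2) := by
    gcongr
  have h7 : (τ' / 2) * c1 * ζ ^ (2 * l + 2) + c1 * τ' / 2 * ζ ^ (2 * l + 2) =
      c1 * τ' * ζ ^ (2 * l + 2) := by ring
  linarith

end

end Pool.Agent.Helper57.NX
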