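import Pool.Agent.Helper5.NX.Basic
import Pool.Agent.Helper85.NX.Form

/-!
Project NX, module NX-9, first part: characters of `ZMod N` and local correlations.
-/

set_option autoImplicit false

open Finset
open scoped BigOperators ComplexConjugate

namespace Pool.Agent.Helper57.NX

noncomputable section

variable {N : ℕ} [NeZero N]

/-- The character `x ↦ e(b x / N)` of `ZMod N`. -/
def ch (b x : ZMod N) : ℂ := ZMod.stdAddChar (b * x)

/-- The frequency of the character `ch b`. -/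
def fr (b : ZMod N) : ℝ := (b.valMinAbs : ℝ) / N

theorem abs_fr_le (b : ZMod N) : |fr b| ≤ 1 / 2 := by
  have hN : (0 : ℝ) < N := by exact_mod_cast NeZero.pos N
  have h := b.valMinAbs_mem_Ioc
  have h1 : -(N : ℝ) < b.valMinAbs * 2 := by exact_mod_cast h.1
  have h2 : (b.valMinAbs : ℝ) * 2 ≤ N := by exact_mod_cast h.2
  rw [fr, abs_le]
  constructor
  · rw [le_div_iff₀ hN]; linarith
  · rw [div_le_iff₀ hN]; linarith

theorem ch_int (b : ZMod N) (t : ℤ) : ch b (t : ZMod N) = e (fr b * t) := by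
  have h : b * (t : ZMod N) = ((b.valMinAbs * t : ℤ) : ZMod N) := by
    rw [Int.cast_mul, ZMod.coe_valMinAbs]
  rw [ch, h, ZMod.stdAddChar_coe, e, fr]
  congr 1
  push_cast
  ring

theorem ch_nat (b : ZMod N) (t : ℕ) : ch b (t : ZMod N) = e (fr b * t) := by
  have h := ch_int b (t : ℤ)
  push_cast at h
  exact h

theorem ch_add (b x y : ZMod N) : ch b (x + y) = ch b x * ch b y := by
  rw [ch, ch, ch, mul_add, AddChar.map_add_eq_mul]

theorem norm_ch (b x : ZMod N) : ‖ch b x‖ = 1 := by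
  rw [ch, ZMod.stdAddChar_apply]
  exact Circle.norm_coe _

theorem ch_mul_conj (b x : ZMod N) : ch b x * conj (ch b x) = 1 := by
  rw [Complex.mul_conj, Complex.normSq_eq_norm_sq, norm_ch]
  norm_num

theorem conj_ch (b x : ZMod N) : conj (ch b x) = ch b (-x) := by
  rw [ch, ch, ZMod.stdAddChar_apply, ZMod.stdAddChar_apply, mul_neg, AddChar.map_neg_eq_inv,
    Circle.coe_inv_eq_conj]

theorem sum_ch (x : ZMod N) : ∑ b : ZMod N, ch b x = if x = 0 then (N : ℂ) else 0 := by
  have h := AddChar.sum_mulShift x (ZMod.isPrimitive_stdAddChar N)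
  rw [ZMod.card] at h
  exact_mod_cast h

theorem sum_ch' (b : ZMod N) : ∑ x : ZMod N, ch b x = if b = 0 then (N : ℂ) else 0 := by
  rw [← sum_ch b]
  exact Finset.sum_congr rfl fun x _ => by rw [ch, ch, mul_comm]

theorem expect_zmod (f : ZMod N → ℂ) : 𝔼 x, f x = (∑ x, f x) / N := by
  rw [Finset.expect_eq_sum_div_card, Finset.card_univ, ZMod.card]

theorem expect_zmod_real (f : ZMod N → ℝ) : 𝔼 x, f x = (∑ x, f x) / N := by
  rw [Finset.expect_eq_sum_div_card, Finset.card_univ, ZMod.card]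

/-- Fourier coefficients. -/
def fc (w : ZMod N → ℂ) (b : ZMod N) : ℂ := 𝔼 x, w x * conj (ch b x)

theorem four_inv (w : ZMod N → ℂ) (y : ZMod N) : w y = ∑ b, fc w b * ch b y := by
  have hN : (N : ℂ) ≠ 0 := by exact_mod_cast NeZero.ne N
  have h1 : ∀ b, fc w b * ch b y = (∑ x, w x * ch b (y - x)) / N := by
    intro b
    rw [fc, expect_zmod, div_mul_eq_mul_div, Finset.sum_mul]
    congr 1
    refine Finset.sum_congr rfl fun x _ => ?_
    rw [conj_ch, mul_assoc, ← ch_add, neg_add_eq_sub]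
  simp_rw [h1]
  rw [← Finset.sum_div, Finset.sum_comm]
  simp_rw [← Finset.mul_sum, sum_ch]
  rw [Finset.sum_eq_single y]
  · rw [sub_self, if_pos rfl, mul_div_assoc, div_self hN, mul_one]
  · intro x _ hx
    rw [if_neg (sub_ne_zero.mpr (Ne.symm hx)), mul_zero]
  · intro h
    exact absurd (Finset.mem_univ y) h

theorem parseval (c : ZMod N → ℂ) :
    𝔼 y, ‖∑ b, c b * ch b y‖ ^ 2 = ∑ b, ‖c b‖ ^ 2 := by
  have hN : (N : ℂ) ≠ 0 := by exact_mod_cast NeZero.ne N
  have key : ((𝔼 y, ‖∑ b, c b * ch b y‖ ^ 2 : ℝ) : ℂ) = ((∑ b, ‖c b‖ ^ 2 : ℝ) : ℂ) := by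
    rw [expect_zmod_real]
    push_cast
    have h1 : ∀ y, ((‖∑ b, c b * ch b y‖ : ℂ)) ^ 2 =
        ∑ b, ∑ b', c b * conj (c b') * ch (b - b') y := by
      intro y
      rw [← Complex.mul_conj', map_sum, Finset.sum_mul_sum]
      refine Finset.sum_congr rfl fun b _ => Finset.sum_congr rfl fun b' _ => ?_
      rw [map_mul, conj_ch]
      have h2 : ch b y * ch b' (-y) = ch (b - b') y := by
        rw [ch, ch, ch, ← AddChar.map_add_eq_mul]
        congr 1
        ring
      rw [← h2]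
      ring
    simp_rw [h1]
    rw [Finset.sum_comm]
    simp_rw [Finset.sum_comm (s := (univ : Finset (ZMod N))) (t := univ)
      (f := fun y b' => c _ * conj (c b') * ch (_ - b') y), ← Finset.mul_sum, sum_ch']
    rw [Finset.sum_div]
    refine Finset.sum_congr rfl fun b _ => ?_
    rw [Finset.sum_eq_single b]
    · rw [sub_self, if_pos rfl, mul_div_assoc, div_self hN, mul_one, Complex.mul_conj']
    · intro b' _ hb
      rw [if_neg (sub_ne_zero.mpr (Ne.symm hb)), mul_zero]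
    · intro h
      exact absurd (Finset.mem_univ b) h
  exact_mod_cast key

theorem sum_fc_le {w : ZMod N → ℂ} (hw : ∀ x, ‖w x‖ ≤ 1) : ∑ b, ‖fc w b‖ ^ 2 ≤ 1 := by
  rw [← parseval]
  have h1 : ∀ y, ‖∑ b, fc w b * ch b y‖ ^ 2 ≤ 1 := by
    intro y
    rw [← four_inv]
    exact pow_le_one₀ (norm_nonneg _) (hw y)
  calc 𝔼 y, ‖∑ b, fc w b * ch b y‖ ^ 2 ≤ 𝔼 _y : ZMod N, (1 : ℝ) :=
        Finset.expect_le_expect fun y _ => h1 y
    _ = 1 := Finset.expect_const (Finset.univ_nonempty) 1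

/-- The local correlation with a suitable character controls the average of the local averages of
all multiplicative derivatives. -/
theorem exists_char {w : ZMod N → ℂ} (hw : ∀ x, ‖w x‖ ≤ 1) (L : ℕ) :
    ∃ b : ZMod N, 𝔼 y, 𝔼 x, ‖A L (fun x => w x * conj (w (x + y))) x‖ ^ 2 ≤
      𝔼 x, ‖A L (fun x => w x * conj (ch b x)) x‖ ^ 2 := by
  -- the identity
  have h1 : ∀ x, 𝔼 y, ‖A L (fun x => w x * conj (w (x + y))) x‖ ^ 2 =
      ∑ b, ‖fc w b‖ ^ 2 * ‖A L (fun x => w x * conj (ch b x)) x‖ ^ 2 := by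
    intro x
    have h2 : ∀ y, ‖A L (fun x => w x * conj (w (x + y))) x‖ ^ 2 =
        ‖∑ b, (fc w b * 𝔼 a ∈ range L, conj (w (x + (a : ZMod N))) * ch b (a : ZMod N)) *
          ch b (y + x)‖ ^ 2 := by
      intro y
      have h3 : ∑ b, (fc w b * 𝔼 a ∈ range L, conj (w (x + (a : ZMod N))) * ch b (a : ZMod N)) *
          ch b (y + x) = 𝔼 a ∈ range L, conj (w (x + (a : ZMod N))) * w (x + (a : ZMod N) + y) := by
        have h4 : ∀ a : ℕ, conj (w (x + (a : ZMod N))) * w (x + (a : ZMod N) + y) =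
            ∑ b, fc w b * (conj (w (x + (a : ZMod N))) * ch b (a : ZMod N)) * ch b (y + x) := by
          intro a
          rw [four_inv w (x + (a : ZMod N) + y), Finset.mul_sum]
          refine Finset.sum_congr rfl fun b _ => ?_
          have h5 : x + (a : ZMod N) + y = (a : ZMod N) + (y + x) := by ring
          rw [h5, ch_add b (a : ZMod N)]
          ring
        simp_rw [h4]
        rw [Finset.expect_sum_comm]
        refine Finset.sum_congr rfl fun b _ => ?_
        rw [Finset.mul_expect, Finset.expect_mul]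
      rw [h3, ← RCLike.norm_conj (A L _ x), A, map_expect]
      congr 2
      refine Finset.expect_congr rfl fun a _ => ?_
      rw [map_mul, Complex.conj_conj]
    simp_rw [h2]
    rw [expect_shift (fun y => ‖∑ b, (fc w b * 𝔼 a ∈ range L,
      conj (w (x + (a : ZMod N))) * ch b (a : ZMod N)) * ch b y‖ ^ 2) x, parseval]
    refine Finset.sum_congr rfl fun b _ => ?_
    rw [norm_mul, mul_pow]
    congr 2
    have h6 : A L (fun x => w x * conj (ch b x)) x =
        conj (ch b x) * conj (𝔼 a ∈ range L, conj (w (x + (a : ZMod N))) * ch b (a : ZMod N)) := by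
      rw [A, map_expect, Finset.mul_expect]
      refine Finset.expect_congr rfl fun a _ => ?_
      rw [map_mul, Complex.conj_conj, ch_add, map_mul]
      ring
    rw [h6, norm_mul, RCLike.norm_conj, RCLike.norm_conj, norm_ch, one_mul]
  rw [Finset.expect_comm]
  simp_rw [h1]
  rw [Finset.expect_sum_comm]
  simp_rw [← Finset.mul_expect]
  obtain ⟨b, -, hb⟩ := Finset.exists_max_image (univ : Finset (ZMod N))
    (fun b => 𝔼 x, ‖A L (fun x => w x * conj (ch b x)) x‖ ^ 2) Finset.univ_nonempty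
  refine ⟨b, ?_⟩
  have h0 : 0 ≤ 𝔼 x, ‖A L (fun x => w x * conj (ch b x)) x‖ ^ 2 :=
    Finset.expect_nonneg fun x _ => sq_nonneg _
  calc ∑ i, ‖fc w i‖ ^ 2 * 𝔼 x, ‖A L (fun x => w x * conj (ch i x)) x‖ ^ 2
      ≤ ∑ i, ‖fc w i‖ ^ 2 * 𝔼 x, ‖A L (fun x => w x * conj (ch b x)) x‖ ^ 2 :=
        Finset.sum_le_sum fun i hi => mul_le_mul_of_nonneg_left (hb i hi) (sq_nonneg _)
    _ = (∑ i, ‖fc w i‖ ^ 2) * 𝔼 x, ‖A L (fun x => w x * conj (ch b x)) x‖ ^ 2 := by
        rw [Finset.sum_mul]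
    _ ≤ 1 * 𝔼 x, ‖A L (fun x => w x * conj (ch b x)) x‖ ^ 2 :=
        mul_le_mul_of_nonneg_right (sum_fc_le hw) h0
    _ = _ := one_mul _

end

end Pool.Agent.Helper57.NX
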