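import Pool.Agent.Helper61.NX.Step

/-!
Project NX, module NX-9, third part: one replacement step for systems.
-/

set_option autoImplicit false

open Finset
open scoped BigOperators ComplexConjugate

namespace Pool.Agent.Helper57.NX

noncomputable section

theorem popular {ι : Type} {s : Finset ι} (hs : s.Nonempty) {a B : ι → ℝ} {η β : ℝ}
    (ha : ∀ i ∈ s, a i ≤ 1) (hB : ∀ i ∈ s, 0 ≤ B i) (hη0 : 0 ≤ η) (hβ : 0 ≤ β)
    (hη : η ≤ 𝔼 i ∈ s, a i) (h : ∀ i ∈ s, η / 2 ≤ a i → β ≤ B i) :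
    η / 2 * β ≤ 𝔼 i ∈ s, B i := by
  have h1 : 𝔼 i ∈ s, (a i - η / 2) * β ≤ 𝔼 i ∈ s, B i := by
    refine Finset.expect_le_expect fun i hi => ?_
    by_cases h2 : η / 2 ≤ a i
    · refine le_trans ?_ (h i hi h2)
      exact mul_le_of_le_one_left hβ (by linarith [ha i hi])
    · push Not at h2
      exact (mul_nonpos_of_nonpos_of_nonneg (by linarith) hβ).trans (hB i hi)
  have h3 : 𝔼 i ∈ s, (a i - η / 2) * β = (𝔼 i ∈ s, a i - η / 2) * β := by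
    rw [← Finset.expect_mul, Finset.expect_sub_distrib, Finset.expect_const hs]
  rw [h3] at h1
  refine le_trans ?_ h1
  exact mul_le_mul_of_nonneg_right (by linarith) hβ

theorem Good.mono {m : ℕ} {S : Sys m} {c : Fin m → ℝ} {N : ℕ} {x x' : ℝ} (h : Good S c N x)
    (hx : x ≤ x') (hD : 1 ≤ S.D) : Good S c N x' where
  ρ0 := h.ρ0
  ρ1 := h.ρ1
  Q1 := h.Q1
  Q2 := h.Q2
  P1 i := by
    refine le_trans (mul_le_mul_of_nonneg_left ?_ (Nat.cast_nonneg _)) (h.P1 i)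
    exact Real.rpow_le_rpow_of_exponent_le hD (by linarith)
  P2 i := by
    refine (h.P2 i).trans (mul_le_mul_of_nonneg_left ?_ (Nat.cast_nonneg _))
    exact Real.rpow_le_rpow_of_exponent_le hD (by linarith)
  N1 i := by
    refine (h.N1 i).trans (mul_le_mul_of_nonneg_left ?_ (Nat.cast_nonneg _))
    exact Real.rpow_le_rpow_of_exponent_le hD hx
  N2 := h.N2
  u1 := h.u1
  u2 := h.u2
  T1 := (Real.rpow_le_rpow_of_exponent_le hD (by linarith)).trans h.T1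

/-- the smoothness scale of the `i`-th function -/
def XiOf {m : ℕ} (S : Sys (m + 1)) (X : ℝ) (i : Fin (m + 1)) : ℝ :=
  if i = Fin.last m then X else S.Q

/-- A character times a function which is almost constant on intervals of length `P i D^(-ε)`. -/
def Nice {m N : ℕ} [NeZero N] (S : Sys (m + 1)) (Xi ε B : ℝ) (i : Fin (m + 1))
    (ψ : ZMod N → ℂ) : Prop :=
  ∃ (b : ZMod N) (z : ℂ) (g : ZMod N → ℂ), ‖z‖ ≤ 1 ∧ (∀ x, ‖g x‖ ≤ 1) ∧
    (∀ (x : ZMod N) (t : ℤ), ‖g (x + (t : ZMod N)) - g x‖ ≤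
      4 * |(t : ℝ)| / (S.P i * S.D ^ (-ε))) ∧
    |fr b| ≤ B / Xi ∧ ∀ x, ψ x = z * ch b x * g x

section Facts

variable {m N : ℕ} [NeZero N] {S : Sys (m + 1)} {c : Fin (m + 1) → ℝ} {x0 ε s X : ℝ}

theorem le_XiOf (hX : (S.Q : ℝ) ≤ X) (i : Fin (m + 1)) : (S.Q : ℝ) ≤ XiOf S X i := by
  unfold XiOf
  split_ifs
  · exact hX
  · exact le_rfl

omit [NeZero N] in
theorem XiOf_le (hG : Good S c N x0) (hD : 1 ≤ S.D) (h1 : ∀ i, x0 + ε ≤ c i)
    (h2 : x0 + ε ≤ c (Fin.last m) - s) (hX' : X ≤ S.Q * S.D ^ s) (i : Fin (m + 1)) :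
    XiOf S X i ≤ S.P i * S.D ^ (-ε) := by
  have hD0 : 0 < S.D := by linarith
  have hQ0 : (0 : ℝ) ≤ S.Q := Nat.cast_nonneg _
  have h3 : S.Q * S.D ^ (c i - x0 - ε) ≤ S.P i * S.D ^ (-ε) := by
    have h4 : (S.Q : ℝ) * S.D ^ (c i - x0 - ε) = S.Q * S.D ^ (c i - x0) * S.D ^ (-ε) := by
      rw [mul_assoc, ← Real.rpow_add hD0]
      congr 2
    rw [h4]
    exact mul_le_mul_of_nonneg_right (hG.P1 i) (Real.rpow_nonneg hD0.le _)
  refine le_trans ?_ h3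
  unfold XiOf
  split_ifs with hi
  · subst hi
    refine hX'.trans (mul_le_mul_of_nonneg_left ?_ hQ0)
    exact Real.rpow_le_rpow_of_exponent_le hD (by linarith)
  · calc (S.Q : ℝ) = S.Q * 1 := (mul_one _).symm
      _ ≤ _ := mul_le_mul_of_nonneg_left (Real.one_le_rpow hD (by linarith [h1 i])) hQ0

omit [NeZero N] in
theorem XiOf_le_N (hG : Good S c N x0) (hD : 1 ≤ S.D) (h2 : 2 * x0 ≤ c (Fin.last m) - s)
    (hX' : X ≤ S.Q * S.D ^ s) (i : Fin (m + 1)) : XiOf S X i ≤ N := by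
  have hD0 : 0 < S.D := by linarith
  have hQ0 : (0 : ℝ) ≤ S.Q := Nat.cast_nonneg _
  unfold XiOf
  split_ifs with hi
  · have h3 : S.Q * S.D ^ (c (Fin.last m) - x0) ≤ N * S.D ^ x0 :=
      (hG.P1 (Fin.last m)).trans (hG.N1 (Fin.last m))
    have h4 : X * S.D ^ x0 ≤ N * S.D ^ x0 := by
      refine le_trans ?_ h3
      calc X * S.D ^ x0 ≤ S.Q * S.D ^ s * S.D ^ x0 :=
            mul_le_mul_of_nonneg_right hX' (Real.rpow_nonneg hD0.le _)
        _ = S.Q * S.D ^ (s + x0) := by rw [mul_assoc, ← Real.rpow_add hD0]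
        _ ≤ _ := mul_le_mul_of_nonneg_left
            (Real.rpow_le_rpow_of_exponent_le hD (by linarith)) hQ0
    exact le_of_mul_le_mul_right h4 (Real.rpow_pos_of_pos hD0 _)
  · exact hG.N2

end Facts

theorem two_le_inv {δ : ℝ} (hδ0 : 0 < δ) (hδ : δ ≤ 1 / 2) : 2 ≤ δ⁻¹ := by
  rw [le_inv_comm₀ (by norm_num) hδ0]
  linarith

theorem one_step (m : ℕ) (c : Fin (m + 1) → ℝ) (s ε : ℝ) (hε : 0 < ε)
    (h1 : ∀ i, ε ≤ c i / 4) (h2 : ε ≤ (c (Fin.last m) - s) / 4) (hU : UsP m c s ε) :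
    ∃ x0 : ℝ, 0 < x0 ∧ x0 ≤ ε ∧ ∃ C : ℕ, 1 ≤ C ∧ ∃ σ : ℝ, 0 < σ ∧ σ ≤ 1 / 2 ∧ ∃ D0 : ℝ, 4 ≤ D0 ∧
    ∀ (S : Sys (m + 1)) (N : ℕ) [NeZero N], D0 ≤ S.D → Good S c N x0 →
    ∀ δ : ℝ, S.D ^ (-σ) ≤ δ → δ ≤ 1 / 2 →
    ∀ X : ℝ, (S.Q : ℝ) ≤ X → S.Q * S.D ^ (s - σ) ≤ X → X ≤ S.Q * S.D ^ s →
    ∀ (h : ℕ → ℂ) (f0 : ZMod N → ℂ) (f : Fin (m + 1) → ZMod N → ℂ),
    (∀ k, ‖h k‖ ≤ 1) → Adm δ⁻¹ S.Q f0 → (∀ i, Adm δ⁻¹ (XiOf S X i) (f i)) →
    δ ≤ ‖form S c h f0 f‖ → ∀ i, ∃ ψ : ZMod N → ℂ,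
      Nice S (XiOf S X i) ε (δ⁻¹ ^ C) i ψ ∧ Adm (δ⁻¹ ^ C) (XiOf S X i) ψ ∧
      δ ^ C ≤ ‖form S c h f0 (Function.update f i ψ)‖ := by
  obtain ⟨x1, hx1, C1, σ1, hσ1, D1, H⟩ := hU
  refine ⟨min x1 ε, lt_min hx1 hε, min_le_right _ _, 18 + 18 * C1, by omega,
    min (σ1 / 9) (1 / 2), lt_min (by positivity) (by norm_num), min_le_right _ _,
    max D1 4, le_max_right _ _, ?_⟩
  intro S N _ hD hG δ hδσ hδ X hQX hX hX' h f0 f hh hf0 hf hform i
  have hD4 : 4 ≤ S.D := (le_max_right _ _).trans hD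
  have hD1 : 1 ≤ S.D := by linarith
  have hD0 : 0 < S.D := by linarith
  have hδ0 : 0 < δ := (Real.rpow_pos_of_pos hD0 _).trans_le hδσ
  have hR2 : 2 ≤ δ⁻¹ := two_le_inv hδ0 hδ
  have hR0 : 0 < δ⁻¹ := inv_pos.mpr hδ0
  have hx0ε : min x1 ε ≤ ε := min_le_right _ _
  -- sizes
  set Xi := XiOf S X i with hXi
  have hQXi : (S.Q : ℝ) ≤ Xi := le_XiOf hQX i
  have hXiP : Xi ≤ S.P i * S.D ^ (-ε) :=
    XiOf_le hG hD1 (fun j => by linarith [h1 j]) (by linarith) hX' i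
  have hXiN : Xi ≤ N := XiOf_le_N hG hD1 (by linarith) hX' i
  have hQD : S.D ^ 2 ≤ (S.Q : ℝ) := by
    have := hG.Q1
    rwa [Real.rpow_two] at this
  have hQ16 : 16 ≤ (S.Q : ℝ) := by nlinarith
  have hXi0 : 0 < Xi := by linarith
  have hN0 : (0 : ℝ) < N := by exact_mod_cast NeZero.pos N
  have hδD : 1 ≤ δ ^ 2 * S.D := by
    have h3 : S.D ^ (-(1 / 2) : ℝ) ≤ δ := le_trans
      (Real.rpow_le_rpow_of_exponent_le hD1 (by linarith [min_le_right (σ1 / 9) (1 / 2 : ℝ)])) hδσ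
    have h4 : (S.D ^ (-(1 / 2) : ℝ)) ^ 2 ≤ δ ^ 2 :=
      pow_le_pow_left₀ (Real.rpow_nonneg hD0.le _) h3 2
    have h5 : (S.D ^ (-(1 / 2) : ℝ)) ^ 2 = S.D⁻¹ := by
      rw [← Real.rpow_natCast, ← Real.rpow_mul hD0.le]
      norm_num
      rw [Real.rpow_neg_one]
    rw [h5] at h4
    calc (1 : ℝ) = S.D⁻¹ * S.D := (inv_mul_cancel₀ hD0.ne').symm
      _ ≤ _ := mul_le_mul_of_nonneg_right h4 hD0.le
  have hYbig : 4 ≤ δ ^ 2 * Xi := by
    have h3 : S.D * 4 ≤ Xi := by nlinarith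
    calc (4 : ℝ) ≤ (δ ^ 2 * S.D) * 4 := by linarith
      _ = δ ^ 2 * (S.D * 4) := by ring
      _ ≤ _ := mul_le_mul_of_nonneg_left h3 (sq_nonneg _)
  set Y : ℕ := ⌊δ ^ 2 * Xi / 4⌋₊ with hYdef
  have hY1 : 1 ≤ Y := Nat.le_floor (by push_cast; linarith)
  have hYle : (Y : ℝ) ≤ δ ^ 2 * Xi / 4 := Nat.floor_le (by positivity)
  have hYge : δ ^ 2 * Xi / 8 ≤ Y := by
    have h3 := Nat.lt_floor_add_one (δ ^ 2 * Xi / 4)
    rw [← hYdef] at h3
    have h4 : (1 : ℝ) ≤ Y := by exact_mod_cast hY1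
    linarith
  have hY0 : (0 : ℝ) < Y := by exact_mod_cast hY1
  set L : ℕ := ⌊S.P i * S.D ^ (-ε)⌋₊ with hLdef
  have hPpos : 16 ≤ S.P i * S.D ^ (-ε) := by linarith
  have hL1 : 1 ≤ L := Nat.le_floor (by push_cast; linarith)
  have hLle : (L : ℝ) ≤ S.P i * S.D ^ (-ε) := Nat.floor_le (by linarith)
  have hLge : S.P i * S.D ^ (-ε) ≤ 2 * L := by
    have h3 := Nat.lt_floor_add_one (S.P i * S.D ^ (-ε))
    rw [← hLdef] at h3
    have h4 : (1 : ℝ) ≤ L := by exact_mod_cast hL1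
    linarith
  have hL0 : (0 : ℝ) < L := by exact_mod_cast hL1
  -- the dual function
  have hfb : ∀ j, j ≠ i → ∀ x, ‖f j x‖ ≤ 1 := fun j _ x => (hf j).bdd x
  set F := dual S c h f0 f i with hFdef
  have hF : ∀ x, ‖F x‖ ≤ 1 := norm_dual_le S c h hh f0 hf0.bdd f i hfb
  have hpair : ∀ u : ZMod N → ℂ, form S c h f0 (Function.update f i u) = 𝔼 x, u x * F x :=
    fun u => form_dual S c h f0 f i u
  have hfF : δ ≤ ‖𝔼 x, f i x * F x‖ := by
    rw [← hpair, Function.update_eq_self]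
    exact hform
  have hsub : 𝔼 x, ‖f i x - A Y (f i) x‖ ≤ δ / 2 := by
    refine (TV.l1_sub_A (hf i).tv hXi0 Y hY1).trans ?_
    have h3 : 1 / Xi + 1 / (N : ℝ) ≤ 2 / Xi := by
      have h4 : 1 / (N : ℝ) ≤ 1 / Xi := one_div_le_one_div_of_le hXi0 hXiN
      calc 1 / Xi + 1 / (N : ℝ) ≤ 1 / Xi + 1 / Xi := by linarith
        _ = 2 / Xi := by ring
    calc (Y : ℝ) * δ⁻¹ * (1 / Xi + 1 / N) ≤ (δ ^ 2 * Xi / 4) * δ⁻¹ * (2 / Xi) := by
          gcongr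
      _ = δ / 2 := by
          field_simp
          norm_num
  have hw1 : δ ^ 2 / 4 ≤ 𝔼 x, ‖Ab Y F x‖ ^ 2 := w_large (hf i).bdd hF Y hδ0 hfF hsub
  -- the function `w`
  set w := wf Y F with hwdef
  have hwb : ∀ x, ‖w x‖ ≤ 1 := norm_wf_le hF Y
  have hwAdm : Adm (δ⁻¹ ^ 6) Xi w := by
    refine ⟨hwb, ?_⟩
    have hYXi : (Y : ℝ) ≤ Xi := by
      have h9 : δ ^ 2 ≤ 1 := pow_le_one₀ hδ0.le (by linarith)
      have h10 : δ ^ 2 * Xi ≤ 1 * Xi := mul_le_mul_of_nonneg_right h9 hXi0.le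
      linarith
    have h3 := TV.rescale (wf_adm hF Y hY1).tv hY0 hYXi
    refine TV.mono h3 ?_ hXi0 le_rfl
    have h4 : Xi / Y ≤ 8 * δ⁻¹ ^ 2 := by
      rw [div_le_iff₀ hY0]
      calc Xi = 8 * δ⁻¹ ^ 2 * (δ ^ 2 * Xi / 8) := by field_simp
        _ ≤ _ := mul_le_mul_of_nonneg_left hYge (by positivity)
    have h5 : (16 : ℝ) ≤ δ⁻¹ ^ 4 := by
      calc (16 : ℝ) = 2 ^ 4 := by norm_num
        _ ≤ _ := pow_le_pow_left₀ (by norm_num) hR2 4
    calc 2 * (Xi / Y) ≤ 2 * (8 * δ⁻¹ ^ 2) := by linarith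
      _ = 16 * δ⁻¹ ^ 2 := by ring
      _ ≤ δ⁻¹ ^ 4 * δ⁻¹ ^ 2 := mul_le_mul_of_nonneg_right h5 (by positivity)
      _ = δ⁻¹ ^ 6 := by ring
  have hwform : ‖form S c h f0 (Function.update f i w)‖ = 𝔼 x, ‖Ab Y F x‖ ^ 2 := by
    rw [hpair, w_pair, Complex.norm_real, Real.norm_eq_abs, abs_of_nonneg]
    exact Finset.expect_nonneg fun x _ => sq_nonneg _
  -- Cauchy-Schwarz in `k`
  set g := Function.update f i w with hgdef
  have hgAdm : ∀ j, Adm (δ⁻¹ ^ 6) (XiOf S X j) (g j) := by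
    intro j
    by_cases hj : j = i
    · subst hj
      rw [hgdef, Function.update_self]
      exact hwAdm
    · rw [hgdef, Function.update_of_ne hj]
      refine (hf j).mono ?_ (lt_of_lt_of_le (by linarith) (le_XiOf hQX j)) le_rfl
      exact le_self_pow₀ (by linarith) (by norm_num)
  set a : ZMod N → ℝ := fun y => ‖form S c 1 (fun x => f0 x * conj (f0 (x + y)))
      (fun j x => g j x * conj (g j (x + y)))‖ with hadef
  have hcs : δ ^ 8 ≤ 𝔼 y, a y := by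
    have h3 := form_cs S c h hh f0 g
    have h4 : (𝔼 y : ZMod N, form S c 1 (fun x => f0 x * conj (f0 (x + y)))
      (fun i x => g i x * conj (g i (x + y)))).re ≤ 𝔼 y, a y :=
      (Complex.re_le_norm _).trans (norm_expect_le' _ _)
    rw [hwform] at h3
    have h5 : (δ ^ 2 / 4) ^ 2 ≤ (𝔼 x, ‖Ab Y F x‖ ^ 2) ^ 2 :=
      pow_le_pow_left₀ (by positivity) hw1 2
    have h6 : δ ^ 4 ≤ 1 / 16 := by
      calc δ ^ 4 ≤ (1 / 2) ^ 4 := pow_le_pow_left₀ hδ0.le hδ 4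
        _ = 1 / 16 := by norm_num
    calc δ ^ 8 = δ ^ 4 * δ ^ 4 := by ring
      _ ≤ 1 / 16 * δ ^ 4 := mul_le_mul_of_nonneg_right h6 (by positivity)
      _ = (δ ^ 2 / 4) ^ 2 := by ring
      _ ≤ _ := h5.trans (h3.trans h4)
  have hconj : ∀ (B X' : ℝ) (u : ZMod N → ℂ) (y : ZMod N), Adm B X' u →
      Adm (B + B) X' (fun x => u x * conj (u (x + y))) :=
    fun B X' u y hu => hu.mul (hu.shift y).cnj
  have hpow7 : δ⁻¹ ^ 6 + δ⁻¹ ^ 6 ≤ (δ ^ 9)⁻¹ := by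
    rw [← inv_pow]
    calc δ⁻¹ ^ 6 + δ⁻¹ ^ 6 = 2 * δ⁻¹ ^ 6 := by ring
      _ ≤ δ⁻¹ * δ⁻¹ ^ 6 := mul_le_mul_of_nonneg_right hR2 (by positivity)
      _ = δ⁻¹ ^ 7 := by ring
      _ ≤ δ⁻¹ ^ 9 := pow_le_pow_right₀ (by linarith) (by norm_num)
  have hpow1 : δ⁻¹ + δ⁻¹ ≤ (δ ^ 9)⁻¹ := by
    refine le_trans ?_ hpow7
    have : δ⁻¹ ≤ δ⁻¹ ^ 6 := le_self_pow₀ (by linarith) (by norm_num)
    linarith
  have hUy : ∀ y, δ ^ 8 / 2 ≤ a y → (δ ^ (9 * C1)) ^ 2 ≤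
      𝔼 x, ‖A L (fun x => w x * conj (w (x + y))) x‖ ^ 2 := by
    intro y hy
    have h3 : δ ^ 9 ≤ a y := by
      refine le_trans ?_ hy
      calc δ ^ 9 = δ ^ 8 * δ := by ring
        _ ≤ δ ^ 8 * (1 / 2) := mul_le_mul_of_nonneg_left hδ (by positivity)
        _ = δ ^ 8 / 2 := by ring
    have h4 : S.D ^ (-σ1) ≤ δ ^ 9 := by
      calc S.D ^ (-σ1) = (S.D ^ (-(σ1 / 9))) ^ 9 := by
            rw [← Real.rpow_natCast, ← Real.rpow_mul hD0.le]
            congr 1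
            push_cast
            ring
        _ ≤ δ ^ 9 := by
            refine pow_le_pow_left₀ (Real.rpow_nonneg hD0.le _) (le_trans ?_ hδσ) 9
            exact Real.rpow_le_rpow_of_exponent_le hD1
              (by linarith [min_le_left (σ1 / 9) (1 / 2 : ℝ)])
    have h5 : δ ^ 9 ≤ 1 / 2 := by
      calc δ ^ 9 ≤ δ ^ 1 := pow_le_pow_of_le_one hδ0.le (by linarith) (by norm_num)
        _ ≤ 1 / 2 := by rw [pow_one]; exact hδ
    have h6 : S.Q * S.D ^ (s - σ1) ≤ X := by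
      refine le_trans (mul_le_mul_of_nonneg_left ?_ (Nat.cast_nonneg _)) hX
      refine Real.rpow_le_rpow_of_exponent_le hD1 ?_
      have := min_le_left (σ1 / 9) (1 / 2 : ℝ)
      linarith
    have hQ0 : (0 : ℝ) < S.Q := by linarith
    have h7 := H S N ((le_max_left _ _).trans hD) (hG.mono (min_le_left _ _) hD1) (δ ^ 9) h4 h5 X
      hQX h6 (fun x => f0 x * conj (f0 (x + y))) (fun j x => g j x * conj (g j (x + y)))
      ((hconj _ _ _ y hf0).mono hpow1 hQ0 le_rfl)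
      (fun j => (hconj _ _ _ y (hgAdm j)).mono hpow7 hQ0 (le_XiOf hQX j))
      (by
        have h8 := (hconj _ _ _ y (hgAdm (Fin.last m)))
        have h9 : XiOf S X (Fin.last m) = X := if_pos rfl
        rw [h9] at h8
        exact h8.mono hpow7 (by linarith) le_rfl)
      h3 i L hL1 hLle
    have h8 : (fun x => g i x * conj (g i (x + y))) = fun x => w x * conj (w (x + y)) := by
      funext x
      rw [hgdef, Function.update_self]
    have h9 : δ ^ (9 * C1) ≤ nrm (A L (fun x => w x * conj (w (x + y)))) := by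
      rw [← h8, pow_mul]
      exact h7
    calc (δ ^ (9 * C1)) ^ 2 ≤ (nrm (A L (fun x => w x * conj (w (x + y))))) ^ 2 :=
          pow_le_pow_left₀ (by positivity) h9 2
      _ ≤ _ := sq_expect_le _ _
  have hpop : δ ^ 8 / 2 * (δ ^ (9 * C1)) ^ 2 ≤
      𝔼 y, 𝔼 x, ‖A L (fun x => w x * conj (w (x + y))) x‖ ^ 2 := by
    refine popular Finset.univ_nonempty (a := a) ?_ ?_ (by positivity) (by positivity) hcs
      fun y _ => hUy y
    · intro y _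
      refine norm_form_le_one S c 1 (fun k => by simp) _ ?_ _ ?_
      · intro x
        rw [norm_mul, RCLike.norm_conj]
        exact mul_le_one₀ (hf0.bdd x) (norm_nonneg _) (hf0.bdd _)
      · intro j x
        rw [norm_mul, RCLike.norm_conj]
        exact mul_le_one₀ ((hgAdm j).bdd x) (norm_nonneg _) ((hgAdm j).bdd _)
    · intro y _
      exact Finset.expect_nonneg fun x _ => sq_nonneg _
  obtain ⟨b, hb⟩ := exists_char hwb L
  set κ := δ ^ (9 + 18 * C1) with hκdef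
  have hκ0 : 0 < κ := by positivity
  have hκ : κ ≤ 𝔼 x, ‖A L (fun x => w x * conj (ch b x)) x‖ ^ 2 := by
    refine le_trans ?_ (hpop.trans hb)
    calc κ = δ * (δ ^ 8 * (δ ^ (9 * C1)) ^ 2) := by rw [hκdef]; ring
      _ ≤ 1 / 2 * (δ ^ 8 * (δ ^ (9 * C1)) ^ 2) :=
          mul_le_mul_of_nonneg_right hδ (by positivity)
      _ = _ := by ring
  obtain ⟨y, hy⟩ := exists_shift Y L b hκ0 hκ
  have hfr : |fr b| ≤ δ⁻¹ ^ (14 + 18 * C1) / Xi := by
    refine (freq_le hF Y L hY1 hL1 b hκ0 hκ).trans ?_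
    have h3 : 1 / (L : ℝ) ≤ 2 / Xi := by
      rw [div_le_div_iff₀ hL0 hXi0]
      linarith
    have h4 : 1 / (2 * (Y : ℝ)) ≤ 4 * δ⁻¹ ^ 2 / Xi := by
      rw [div_le_div_iff₀ (by positivity) hXi0]
      calc 1 * Xi = 4 * δ⁻¹ ^ 2 * (2 * (δ ^ 2 * Xi / 8)) := by field_simp; norm_num
        _ ≤ _ := by gcongr
    have h5 : (1 : ℝ) ≤ δ⁻¹ ^ 2 := one_le_pow₀ (by linarith)
    have h6 : (8 : ℝ) ≤ δ⁻¹ ^ 3 := by
      calc (8 : ℝ) = 2 ^ 3 := by norm_num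
        _ ≤ _ := pow_le_pow_left₀ (by norm_num) hR2 3
    have h7 : 1 / (L : ℝ) + 1 / (2 * (Y : ℝ)) ≤ δ⁻¹ ^ 5 / Xi := by
      calc 1 / (L : ℝ) + 1 / (2 * (Y : ℝ)) ≤ 2 / Xi + 4 * δ⁻¹ ^ 2 / Xi := add_le_add h3 h4
        _ = (2 + 4 * δ⁻¹ ^ 2) / Xi := by ring
        _ ≤ (δ⁻¹ ^ 3 * δ⁻¹ ^ 2) / Xi := by
            gcongr
            nlinarith
        _ = _ := by ring
    calc κ⁻¹ * (1 / L + 1 / (2 * Y)) ≤ κ⁻¹ * (δ⁻¹ ^ 5 / Xi) :=
          mul_le_mul_of_nonneg_left h7 (by positivity)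
      _ = δ⁻¹ ^ (14 + 18 * C1) / Xi := by
          rw [hκdef, ← inv_pow]
          ring
  have hLinv : 2 / (L : ℝ) ≤ 4 / Xi := by
    rw [div_le_div_iff₀ hL0 hXi0]
    linarith
  refine ⟨fun x => ch b (x + y) * sf Y L F b (x + y), ?_, ?_, ?_⟩
  · refine ⟨b, ch b y, fun x => sf Y L F b (x + y), (norm_ch b y).le,
      fun x => norm_sf_le hF Y L b _, ?_, ?_, ?_⟩
    · intro x t
      have h3 := sf_lip hF Y L hL1 b (x + y) t
      have h4 : x + (t : ZMod N) + y = x + y + (t : ZMod N) := by ring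
      change ‖sf Y L F b (x + (t : ZMod N) + y) - sf Y L F b (x + y)‖ ≤ _
      rw [h4]
      refine h3.trans ?_
      rw [div_le_div_iff₀ hL0 (by linarith)]
      have h5 : 0 ≤ 2 * |(t : ℝ)| := by positivity
      calc 2 * |(t : ℝ)| * (S.P i * S.D ^ (-ε)) ≤ 2 * |(t : ℝ)| * (2 * L) :=
            mul_le_mul_of_nonneg_left hLge h5
        _ = _ := by ring
    · refine hfr.trans ?_
      gcongr
      · linarith
      · omega
    · intro x
      change ch b (x + y) * _ = _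
      rw [ch_add]
      ring
  · refine ⟨fun x => ?_, ?_⟩
    · change ‖ch b (x + y) * _‖ ≤ 1
      rw [norm_mul, norm_ch, one_mul]
      exact norm_sf_le hF Y L b _
    · have hstep : ∀ x : ZMod N, ‖ch b (x + 1 + y) * sf Y L F b (x + 1 + y) -
          ch b (x + y) * sf Y L F b (x + y)‖ ≤ 2 * Real.pi * |fr b| + 2 / L := by
        intro x
        have h3 : ch b (x + 1 + y) * sf Y L F b (x + 1 + y) -
          ch b (x + y) * sf Y L F b (x + y) =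
          (ch b (x + y + 1) - ch b (x + y)) * sf Y L F b (x + y + 1) +
          ch b (x + y) * (sf Y L F b (x + y + 1) - sf Y L F b (x + y)) := by
          have h4 : x + 1 + y = x + y + 1 := by ring
          rw [h4]
          ring
        rw [h3]
        refine (norm_add_le _ _).trans (add_le_add ?_ ?_)
        · rw [norm_mul]
          exact (mul_le_of_le_one_right (norm_nonneg _) (norm_sf_le hF Y L b _)).trans
            (ch_step b _)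
        · rw [norm_mul, norm_ch, one_mul]
          have h5 := sf_lip hF Y L hL1 b (x + y) 1
          simpa using h5
      refine tv_of_step hstep ?_ (by positivity)
      have h3 : 2 * Real.pi * |fr b| ≤ 8 * δ⁻¹ ^ (14 + 18 * C1) / Xi := by
        have h4 : 2 * Real.pi ≤ 8 := by linarith [Real.pi_le_four]
        calc 2 * Real.pi * |fr b| ≤ 8 * (δ⁻¹ ^ (14 + 18 * C1) / Xi) :=
              mul_le_mul h4 hfr (abs_nonneg _) (by norm_num)
          _ = _ := by ring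
      have h5 : (1 : ℝ) ≤ δ⁻¹ ^ (14 + 18 * C1) := one_le_pow₀ (by linarith)
      have h6 : (16 : ℝ) ≤ δ⁻¹ ^ 4 := by
        calc (16 : ℝ) = 2 ^ 4 := by norm_num
          _ ≤ _ := pow_le_pow_left₀ (by norm_num) hR2 4
      calc 2 * Real.pi * |fr b| + 2 / L ≤ 8 * δ⁻¹ ^ (14 + 18 * C1) / Xi + 4 / Xi :=
            add_le_add h3 hLinv
        _ = (8 * δ⁻¹ ^ (14 + 18 * C1) + 4) / Xi := by ring
        _ ≤ (δ⁻¹ ^ 4 * δ⁻¹ ^ (14 + 18 * C1)) / Xi := by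
            gcongr
            nlinarith
        _ = _ := by ring
  · rw [hpair]
    refine le_trans ?_ hy
    exact pow_le_pow_of_le_one hδ0.le (by linarith) (by omega)

end

end Pool.Agent.Helper57.NX
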