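import Pool.Agent.Helper61.NX.Four

/-!
Project NX, module NX-9, second part: replacing one function by a character times a function
which is almost constant on long intervals.
-/

set_option autoImplicit false

open Finset
open scoped BigOperators ComplexConjugate

namespace Pool.Agent.Helper57.NX

noncomputable section

variable {N : ℕ} [NeZero N]

theorem sq_expect_le {ι : Type} (s : Finset ι) (g : ι → ℝ) :
    (𝔼 i ∈ s, g i) ^ 2 ≤ 𝔼 i ∈ s, g i ^ 2 := by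
  rcases s.eq_empty_or_nonempty with rfl | hs
  · simp
  have hc : (0 : ℝ) < s.card := by exact_mod_cast hs.card_pos
  rw [Finset.expect_eq_sum_div_card, Finset.expect_eq_sum_div_card, div_pow,
    div_le_div_iff₀ (by positivity) hc]
  have h := sq_sum_le_card_mul_sum_sq (s := s) (f := g)
  nlinarith [h, hc]

theorem norm_expect_le' {ι : Type} (s : Finset ι) (g : ι → ℂ) :
    ‖𝔼 i ∈ s, g i‖ ≤ 𝔼 i ∈ s, ‖g i‖ := by
  rw [Finset.expect_eq_sum_div_card, Finset.expect_eq_sum_div_card, norm_div,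
    Complex.norm_natCast]
  exact div_le_div_of_nonneg_right (norm_sum_le _ _) (Nat.cast_nonneg _)

theorem expect_lt {ι : Type} {s : Finset ι} (hs : s.Nonempty) {g : ι → ℝ} {κ : ℝ}
    (h : ∀ i ∈ s, g i < κ) : 𝔼 i ∈ s, g i < κ := by
  have hc : (0 : ℝ) < s.card := by exact_mod_cast hs.card_pos
  rw [Finset.expect_eq_sum_div_card, div_lt_iff₀ hc]
  calc ∑ i ∈ s, g i < ∑ _i ∈ s, κ := Finset.sum_lt_sum_of_nonempty hs h
    _ = κ * s.card := by rw [Finset.sum_const, nsmul_eq_mul, mul_comm]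

theorem norm_pair_le {u F : ZMod N → ℂ} (hF : ∀ x, ‖F x‖ ≤ 1) : ‖𝔼 x, u x * F x‖ ≤ nrm u := by
  refine (norm_expect_le' _ _).trans (Finset.expect_le_expect fun x _ => ?_)
  rw [norm_mul]
  exact mul_le_of_le_one_right (norm_nonneg _) (hF x)

omit [NeZero N] in
theorem conj_A (L : ℕ) (f : ZMod N → ℂ) (x : ZMod N) :
    conj (A L f x) = A L (fun x => conj (f x)) x := by
  rw [A, A, map_expect]

omit [NeZero N] in
theorem conj_Ab (L : ℕ) (f : ZMod N → ℂ) (x : ZMod N) :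
    conj (Ab L f x) = Ab L (fun x => conj (f x)) x := by
  rw [Ab, Ab, map_expect]

/-- The function `w`. -/
def wf (Y : ℕ) (F : ZMod N → ℂ) (x : ZMod N) : ℂ := conj (A Y (Ab Y F) x)

theorem expect_mul_conj (G : ZMod N → ℂ) :
    𝔼 x, conj (G x) * G x = ((𝔼 x, ‖G x‖ ^ 2 : ℝ) : ℂ) := by
  rw [expect_zmod, expect_zmod_real]
  push_cast
  congr 1
  exact Finset.sum_congr rfl fun x _ => Complex.conj_mul' _

theorem w_pair (Y : ℕ) (F : ZMod N → ℂ) :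
    𝔼 x, wf Y F x * F x = ((𝔼 x, ‖Ab Y F x‖ ^ 2 : ℝ) : ℂ) := by
  have h1 : 𝔼 x, wf Y F x * F x = 𝔼 x, A Y (fun x => conj (Ab Y F x)) x * F x :=
    Finset.expect_congr rfl fun x _ => by rw [wf, conj_A]
  rw [h1, adj_A, ← expect_mul_conj]

theorem w_large {f F : ZMod N → ℂ} (hf : ∀ x, ‖f x‖ ≤ 1) (hF : ∀ x, ‖F x‖ ≤ 1) (Y : ℕ) {δ : ℝ}
    (hδ : 0 < δ) (h : δ ≤ ‖𝔼 x, f x * F x‖) (hY : 𝔼 x, ‖f x - A Y f x‖ ≤ δ / 2) :
    δ ^ 2 / 4 ≤ 𝔼 x, ‖Ab Y F x‖ ^ 2 := by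
  have h1 : 𝔼 x, f x * F x = 𝔼 x, (f x - A Y f x) * F x + 𝔼 x, A Y f x * F x := by
    rw [← Finset.expect_add_distrib]
    exact Finset.expect_congr rfl fun x _ => by ring
  have h2 : ‖𝔼 x, (f x - A Y f x) * F x‖ ≤ δ / 2 := (norm_pair_le hF).trans hY
  have h3 : ‖𝔼 x, A Y f x * F x‖ ≤ 𝔼 x, ‖Ab Y F x‖ := by
    rw [adj_A]
    refine (norm_expect_le' _ _).trans (Finset.expect_le_expect fun x _ => ?_)
    rw [norm_mul]
    exact mul_le_of_le_one_left (norm_nonneg _) (hf x)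
  have h4 : δ / 2 ≤ 𝔼 x, ‖Ab Y F x‖ := by
    have := norm_add_le (𝔼 x, (f x - A Y f x) * F x) (𝔼 x, A Y f x * F x)
    rw [← h1] at this
    linarith
  have h5 := sq_expect_le univ (fun x : ZMod N => ‖Ab Y F x‖)
  have h6 : (δ / 2) ^ 2 ≤ (𝔼 x, ‖Ab Y F x‖) ^ 2 := pow_le_pow_left₀ (by positivity) h4 2
  calc δ ^ 2 / 4 = (δ / 2) ^ 2 := by ring
    _ ≤ _ := h6.trans h5

theorem norm_wf_le {F : ZMod N → ℂ} (hF : ∀ x, ‖F x‖ ≤ 1) (Y : ℕ) (x : ZMod N) :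
    ‖wf Y F x‖ ≤ 1 := by
  rw [wf, RCLike.norm_conj]
  exact norm_A_le (norm_Ab_le hF Y) Y x

theorem wf_adm {F : ZMod N → ℂ} (hF : ∀ x, ‖F x‖ ≤ 1) (Y : ℕ) (hY : 1 ≤ Y) :
    Adm 2 Y (wf Y F) := by
  have h1 : Adm 2 Y (A Y (Ab Y F)) := by
    refine ⟨norm_A_le (norm_Ab_le hF Y) Y, ?_⟩
    have := tv_A (M := 1) (norm_Ab_le hF Y) Y hY
    rwa [mul_one] at this
  exact h1.cnj

/-- The structured function. -/
def sf (Y L : ℕ) (F : ZMod N → ℂ) (b : ZMod N) (x : ZMod N) : ℂ :=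
  Ab L (A L (fun x => wf Y F x * conj (ch b x))) x

theorem norm_wch_le {F : ZMod N → ℂ} (hF : ∀ x, ‖F x‖ ≤ 1) (Y : ℕ) (b x : ZMod N) :
    ‖wf Y F x * conj (ch b x)‖ ≤ 1 := by
  rw [norm_mul, RCLike.norm_conj, norm_ch, mul_one]
  exact norm_wf_le hF Y x

theorem norm_sf_le {F : ZMod N → ℂ} (hF : ∀ x, ‖F x‖ ≤ 1) (Y L : ℕ) (b x : ZMod N) :
    ‖sf Y L F b x‖ ≤ 1 :=
  norm_Ab_le (norm_A_le (norm_wch_le hF Y b) L) L x

theorem sf_lip {F : ZMod N → ℂ} (hF : ∀ x, ‖F x‖ ≤ 1) (Y L : ℕ) (hL : 1 ≤ L) (b x : ZMod N)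
    (t : ℤ) : ‖sf Y L F b (x + (t : ZMod N)) - sf Y L F b x‖ ≤ 2 * |(t : ℝ)| / L :=
  Ab_lipschitz (norm_A_le (norm_wch_le hF Y b) L) L hL x t

theorem exists_shift {F : ZMod N → ℂ} (Y L : ℕ) (b : ZMod N) {κ : ℝ} (hκ0 : 0 < κ)
    (hκ : κ ≤ 𝔼 x, ‖A L (fun x => wf Y F x * conj (ch b x)) x‖ ^ 2) :
    ∃ y : ZMod N, κ ≤ ‖𝔼 x, (ch b (x + y) * sf Y L F b (x + y)) * F x‖ := by
  -- the pairing of `conj w` with `ch b * sf`
  set g : ZMod N → ℂ := fun x => wf Y F x * conj (ch b x) with hg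
  set ψ : ZMod N → ℂ := fun x => ch b x * sf Y L F b x with hψ
  have h1 : 𝔼 x, conj (wf Y F x) * ψ x = ((𝔼 x, ‖A L g x‖ ^ 2 : ℝ) : ℂ) := by
    have h2 : 𝔼 x, conj (wf Y F x) * ψ x = 𝔼 x, conj (g x) * Ab L (A L g) x := by
      refine Finset.expect_congr rfl fun x _ => ?_
      rw [hg, hψ]
      simp only [map_mul, Complex.conj_conj, sf]
      ring
    rw [h2, ← adj_A, ← expect_mul_conj]
    refine Finset.expect_congr rfl fun x _ => ?_
    rw [conj_A]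
  have h3 : 𝔼 x, conj (wf Y F x) * ψ x = 𝔼 x, A Y (Ab Y ψ) x * F x := by
    have h4 : 𝔼 x, conj (wf Y F x) * ψ x = 𝔼 x, A Y (Ab Y F) x * ψ x := by
      refine Finset.expect_congr rfl fun x _ => ?_
      rw [wf, Complex.conj_conj]
    rw [h4, adj_A, adj_A]
    exact Finset.expect_congr rfl fun x _ => mul_comm _ _
  have h5 : 𝔼 x, A Y (Ab Y ψ) x * F x =
      𝔼 p ∈ range Y ×ˢ range Y, 𝔼 x, ψ (x + ((p.1 : ZMod N) - (p.2 : ZMod N))) * F x := by
    rw [Finset.expect_product, ]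
    simp only [A, Ab]
    simp_rw [Finset.expect_mul]
    rw [Finset.expect_comm]
    refine Finset.expect_congr rfl fun a _ => ?_
    rw [Finset.expect_comm]
    refine Finset.expect_congr rfl fun a' _ => ?_
    refine Finset.expect_congr rfl fun x _ => ?_
    rw [add_sub_assoc]
  by_contra hcon
  push Not at hcon
  have h6 : ‖𝔼 p ∈ range Y ×ˢ range Y, 𝔼 x, ψ (x + ((p.1 : ZMod N) - (p.2 : ZMod N))) * F x‖ < κ := by
    rcases (range Y ×ˢ range Y).eq_empty_or_nonempty with h | h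
    · rw [h, Finset.expect_empty, norm_zero]
      exact hκ0
    · refine (norm_expect_le' _ _).trans_lt ?_
      exact expect_lt h fun p _ => hcon _
  rw [← h5, ← h3, h1, Complex.norm_real, Real.norm_eq_abs, abs_of_nonneg] at h6
  · exact absurd hκ (not_le.mpr h6)
  · exact Finset.expect_nonneg fun x _ => sq_nonneg _

omit [NeZero N] in
theorem tv_of_step {f : ZMod N → ℂ} {η B X : ℝ} (h : ∀ x, ‖f (x + 1) - f x‖ ≤ η)
    (hη : η ≤ B / X) (hB : 0 ≤ B) : TV B X f := by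
  intro x l
  calc ∑ j ∈ range l, ‖f (x + (j : ZMod N) + 1) - f (x + (j : ZMod N))‖
      ≤ ∑ _j ∈ range l, B / X := Finset.sum_le_sum fun j _ => (h _).trans hη
    _ = B * (l / X) := by
        rw [Finset.sum_const, Finset.card_range, nsmul_eq_mul]
        ring
    _ ≤ B * (l / X + 1) := mul_le_mul_of_nonneg_left (by linarith) hB

theorem ch_step (b x : ZMod N) : ‖ch b (x + 1) - ch b x‖ ≤ 2 * Real.pi * |fr b| := by
  have h1 : ch b (1 : ZMod N) = e (fr b) := by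
    have := ch_nat b 1
    rwa [Nat.cast_one, Nat.cast_one, mul_one] at this
  rw [ch_add, h1]
  have h2 : ch b x * e (fr b) - ch b x = ch b x * (e (fr b) - e 0) := by
    rw [e_zero]; ring
  rw [h2, norm_mul, norm_ch, one_mul]
  have h3 := norm_e_sub_e_le (fr b) 0
  rwa [sub_zero] at h3

theorem A_wch (Y L : ℕ) (F : ZMod N → ℂ) (b x : ZMod N) :
    A L (fun x => wf Y F x * conj (ch b x)) x =
      conj (ch b x) * 𝔼 t ∈ range L, wf Y F (x + (t : ZMod N)) * e (-(fr b * t)) := by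
  rw [A, Finset.mul_expect]
  refine Finset.expect_congr rfl fun a _ => ?_
  rw [ch_add, map_mul, e_neg, ← ch_nat]
  ring

theorem freq_le {F : ZMod N → ℂ} (hF : ∀ x, ‖F x‖ ≤ 1) (Y L : ℕ) (hY : 1 ≤ Y) (hL : 1 ≤ L)
    (b : ZMod N) {κ : ℝ} (hκ0 : 0 < κ)
    (hκ : κ ≤ 𝔼 x, ‖A L (fun x => wf Y F x * conj (ch b x)) x‖ ^ 2) :
    |fr b| ≤ κ⁻¹ * (1 / L + 1 / (2 * Y)) := by
  have hL0 : (0 : ℝ) < L := by exact_mod_cast hL
  have hY0 : (0 : ℝ) < Y := by exact_mod_cast hY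
  rcases eq_or_lt_of_le (abs_nonneg (fr b)) with h0 | h0
  · rw [← h0]; positivity
  -- a good point
  have h1 : ∃ x, κ ≤ ‖A L (fun x => wf Y F x * conj (ch b x)) x‖ := by
    by_contra hcon
    push Not at hcon
    have h2 : 𝔼 x, ‖A L (fun x => wf Y F x * conj (ch b x)) x‖ ^ 2 < κ := by
      refine expect_lt Finset.univ_nonempty fun x _ => ?_
      have h3 := norm_A_le (norm_wch_le hF Y b) L x
      calc ‖A L (fun x => wf Y F x * conj (ch b x)) x‖ ^ 2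
          ≤ ‖A L (fun x => wf Y F x * conj (ch b x)) x‖ := by
            rw [sq]
            exact mul_le_of_le_one_left (norm_nonneg _) h3
        _ < κ := hcon x
    exact absurd hκ (not_le.mpr h2)
  obtain ⟨x, hx⟩ := h1
  rw [A_wch, norm_mul, RCLike.norm_conj, norm_ch, one_mul] at hx
  have h4 := hx.trans (freq_bound (norm_wf_le hF Y) x L hL (fr b) h0 (abs_fr_le b))
  have h5 := (wf_adm hF Y hY).tv x L
  have h6 : κ ≤ (2 + 2 * (L / Y + 1)) / (4 * |fr b| * L) := by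
    refine h4.trans ?_
    gcongr
  rw [le_div_iff₀ (by positivity)] at h6
  rw [← div_eq_inv_mul, le_div_iff₀ hκ0]
  have h7 : |fr b| * κ * (4 * L) ≤ (1 / L + 1 / (2 * Y)) * (4 * L) := by
    have h8 : (1 / (L : ℝ) + 1 / (2 * Y)) * (4 * L) = 2 + 2 * (L / Y + 1) := by
      field_simp
      ring
    rw [h8]
    linarith
  exact le_of_mul_le_mul_right h7 (by positivity)

end

end Pool.Agent.Helper57.NX
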